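import Pool.Agent.N513.CE.Defs
import Pool.Agent.N303.KS.Cnt

/-!
# Project CE: a non-sofic central extension by `ℤ/2` of a residually finite group (statements)
-/

set_option autoImplicit false

namespace Pool.Agent.N513.CE

open Pool.Agent.N44.NS (E3 el)
open Pool.Agent.H21R2 (IsSofic)
open Pool.Agent.W661.RC (HasT)
open Pool.Agent.N303.KS (ct)

/-! ### Part 1: the sofic side -/

/-- A finite approximation: `σ` is almost multiplicative on `B`; `f x` is for most `x` a partial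
homomorphism from `A` to the finite group `Q`, and `f (g x) (g l g⁻¹) = f x l`. -/
def Apx {P : Type} [Group P] (A B : Finset P) (δ : ℝ) {V Q : Type} [Fintype V] [Group Q]
    (σ : P → Equiv.Perm V) (f : V → P → Q) (Bad : V → Prop) : Prop :=
  ct Bad ≤ δ * Fintype.card V ∧
  ∀ x, ¬ Bad x →
    (∀ l ∈ A, ∀ l' ∈ A, l * l' ∈ A → f x (l * l') = f x l * f x l') ∧
    (∀ l ∈ A, l ≠ 1 → f x l ≠ 1) ∧
    (∀ g ∈ B, ∀ l ∈ A, g * l * g⁻¹ ∈ A → f (σ g x) (g * l * g⁻¹) = f x l) ∧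
    (∀ g ∈ B, ∀ h ∈ B, σ (g * h) x = σ g (σ h x))

/-- Theorem A of the project KT with the transport (to be proved by helper303). -/
def ThmAT : Prop :=
  ∀ (P : Type) [Group P] (N : Subgroup P), N.Normal → IsSofic P → HasT N →
    ∀ A B : Finset P, (∀ l ∈ A, l ∈ N ∧ ∀ n ∈ N, n * l = l * n) → ∀ δ : ℝ, 0 < δ →
      ∃ (V Y : Type) (_ : Fintype V) (_ : Nonempty V) (_ : Finite Y)
        (σ : P → Equiv.Perm V) (φ : P → Equiv.Perm Y) (Lam : V → Set Y)
        (f : V → P → Equiv.Perm Y) (Bad : V → Prop),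
        ct Bad ≤ δ * Fintype.card V ∧
        ∀ x, ¬ Bad x →
          (∀ l ∈ A, ∀ l' ∈ A, l * l' ∈ A → f x (l * l') = f x l * f x l') ∧
          (∀ l ∈ A, l ≠ 1 → f x l ≠ 1) ∧
          (∀ l ∈ A, ∀ y, y ∉ Lam x → f x l y = y) ∧
          (∀ g ∈ B, ∀ y, y ∈ Lam x ↔ φ g y ∈ Lam (σ g x)) ∧
          (∀ g ∈ B, ∀ l ∈ A, g * l * g⁻¹ ∈ A →
            f (σ g x) (g * l * g⁻¹) = φ g * f x l * (φ g)⁻¹) ∧
          (∀ g ∈ B, ∀ h ∈ B, σ (g * h) x = σ g (σ h x) ∧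
            ∀ y ∈ Lam x, φ (g * h) y = φ g (φ h y))

/-- The rigidified form. -/
def ThmAA : Prop :=
  ∀ (P : Type) [Group P] (N : Subgroup P), N.Normal → IsSofic P → HasT N →
    ∀ A B : Finset P, (∀ l ∈ A, l ∈ N ∧ ∀ n ∈ N, n * l = l * n) → ∀ δ : ℝ, 0 < δ →
      ∃ (V Q : Type) (_ : Fintype V) (_ : Nonempty V) (_ : Group Q) (_ : Finite Q)
        (σ : P → Equiv.Perm V) (f : V → P → Q) (Bad : V → Prop), Apx A B δ σ f Bad

/-- RIG -/
def S_RIG : Prop := ThmAT → ThmAA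

/-- ODD: `f x m` has odd order for most `x`. -/
def S_ODD : Prop :=
  ∀ (P : Type) [Group P] (m m' a g : P), a * m * a⁻¹ = m' → a * m' * a⁻¹ = (m * m')⁻¹ →
    g * m * g⁻¹ = m ^ 2 → g * m' ^ 2 * g⁻¹ = m' → m * m' = m' * m →
    ∀ ε : ℝ, 0 < ε → ∃ (A B : Finset P) (δ : ℝ), 0 < δ ∧
      (∀ x ∈ A, x ∈ Subgroup.closure ({m, m'} : Set P)) ∧
      ∀ (A' B' : Finset P), A ⊆ A' → B ⊆ B' →
        ∀ (V Q : Type) [Fintype V] [Group Q] [Finite Q] (σ : P → Equiv.Perm V) (f : V → P → Q)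
          (Bad : V → Prop), Apx A' B' δ σ f Bad →
          ct (fun x => Even (orderOf (f x m))) ≤ ε * Fintype.card V

/-- LAB: the labels. -/
def S_LAB : Prop :=
  ThmAA → S_ODD →
  ∀ (P D L G : Type) [Group P] [Group D] [AddCommGroup L] [Group G]
    (N : Subgroup P) (j : D →* P) (s : L → P) (ρ : D →* AddMonoid.End L) (i : G →* D) (K : Subgroup G)
    (S : Finset G) (w c : L),
    N.Normal → HasT N → IsSofic P → Function.Injective s → (∀ a b, s (a + b) = s a * s b) →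
    (∀ l, s l ∈ N ∧ ∀ n ∈ N, n * s l = s l * n) →
    (∀ d l, j d * s l * (j d)⁻¹ = s (ρ d l)) →
    Subgroup.closure (S : Set G) = K → (∀ d, ρ d c = c) → c + c = 0 → c ≠ 0 →
    (∀ k ∈ S, ∃ (a g : D) (m' : L), ρ a (ρ (i k) w - w) = m' ∧
      ρ a m' = -((ρ (i k) w - w) + m') ∧ ρ g (ρ (i k) w - w) = (2 : ℤ) • (ρ (i k) w - w) ∧
      ρ g ((2 : ℤ) • m') = m') →
    (∀ g, g ∉ K → ∃ y : D, ρ y (ρ (i g) w - w) = ρ (i g) w - w + c) →
    Pool.Agent.N540.SA.IsSofic (MulAction.toPermHom G (G ⧸ K))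

/-! ### Part 2: the big group -/

/-- TEL: property (T) of `E_3` of the group algebra of a finitely generated group. -/
def S_TEL : Prop :=
  ∀ (X : Type) [Group X], Group.FG X → ∃ q : ℕ, q.Prime ∧ HasT (E3 (MonoidAlgebra (ZMod q) X))

/-- HFG: the Hall group is finitely generated. -/
def S_HFG : Prop := ∀ (D : Type) [Group D], Group.FG D → Group.FG (Hall ℤ D)

/-- DIA: the central scalar matrices lie in `E_3`. -/
def S_DIA : Prop :=
  ∀ (q : ℕ) (C D : Type) [CommRing C] [Group D] (W : MonoidAlgebra C D),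
    dia (ZMod q) (Hall.z W) ∈ E3 (AA q C D)

/-- HRF: the Hall group is residually finite. -/
def S_HRF : Prop :=
  ∀ (D : Type) [Group D], RF D → ∀ T : Finset (Hall ℤ D),
    ∃ (n : ℕ) (D' : Type) (_ : Group D') (_ : Finite D') (π : D →* D')
      (φ : Hall ℤ D →* Hall (ZMod n) D'), n ≠ 0 ∧ Set.InjOn φ (T : Set (Hall ℤ D)) ∧
      (∀ x, (φ x).h = π x.h) ∧
      (∀ W, ∃ W', φ (Hall.z W) = Hall.z W') ∧ ∀ d x, φ (Hall.act d x) = Hall.act (π d) (φ x)

/-- SEP: the quotient by the scalars of a closed left ideal is residually finite. -/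
def S_SEP : Prop :=
  ∀ (q : ℕ) (D : Type) [Group D], q.Prime → RF D →
    ∀ I : AddSubgroup (MonoidAlgebra ℤ D), Stab I →
      (∀ W, W ∉ I → ∃ (E : Type) (_ : AddCommGroup E) (_ : Finite E) (τ : D →* AddMonoid.End E)
        (f : MonoidAlgebra ℤ D →+ E), (∀ d x, f (MonoidAlgebra.of ℤ D d * x) = τ d (f x)) ∧
        (∀ x ∈ I, f x = 0) ∧ f W ≠ 0) →
      ∀ x : PH q ℤ D, x ∉ scP q I → ∃ (Q : Type) (_ : Group Q) (_ : Finite Q)
        (φ : PH q ℤ D →* Q), (∀ y ∈ scP q I, φ y = 1) ∧ φ x ≠ 1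

/-- ENV: every cyclic module which is residually finite modulo `c` sits in the centre of a normal
Kazhdan subgroup of a group which is residually finite modulo `c`. -/
def S_ENV : Prop :=
  ∀ (D L : Type) [Group D] [AddCommGroup L] (ρ : D →* AddMonoid.End L) (w c : L),
    RF D → Group.FG D → AddSubgroup.closure (Set.range fun d => ρ d w) = ⊤ →
    (∀ d, ρ d c = c) →
    (∀ l : L, l ≠ 0 → l ≠ c → ∃ (E : Type) (_ : AddCommGroup E) (_ : Finite E)
      (τ : D →* AddMonoid.End E) (f : L →+ E), (∀ d l, f (ρ d l) = τ d (f l)) ∧ f c = 0 ∧ f l ≠ 0) →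
    c + c = 0 → c ≠ 0 →
    ∃ (P : Type) (_ : Group P) (N Z : Subgroup P) (_ : N.Normal) (_ : Z.Normal) (j : D →* P)
      (s : L → P), HasT N ∧ Function.Injective s ∧ (∀ a b, s (a + b) = s a * s b) ∧
      (∀ l, s l ∈ N ∧ ∀ n ∈ N, n * s l = s l * n) ∧
      (∀ d l, j d * s l * (j d)⁻¹ = s (ρ d l)) ∧
      (∀ x, x ∈ Z ↔ x = 1 ∨ x = s c) ∧
      ∀ x : P ⧸ Z, x ≠ 1 → ∃ (Q : Type) (_ : Group Q) (_ : Finite Q) (φ : P ⧸ Z →* Q), φ x ≠ 1

/-- the reduction -/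
def S_ENVR : Prop := S_TEL → S_HFG → S_DIA → S_SEP → S_ENV

/-! ### Part 3: the module -/

/-- Stretching data: `a` and `g` act on `R × R` through an idempotent `e` like the matrices
`(0 1; -1 -1)` and `diag (2, 1/2)`. -/
def S_STR : Prop :=
  ∀ (R : Type) [Ring R] (e t : R), e * e = e → (∀ x, t * x = x * t) → t + t = 1 →
    ∃ a g : (R × R) ≃+ (R × R),
      (∀ x, a x = (x.1 * (1 - e) - x.2 * e, x.1 * e + x.2 * (1 - e - e))) ∧
      ∀ x, g x = (x.1 * (1 + e), x.2 * (1 - e * t))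

/-- MOD: the module. -/
def S_MOD : Prop :=
  ∀ (G : Type) [Group G] (K : Subgroup G) (S : Finset G) (p : ℕ), RF G → Group.FG G → p.Prime →
    p ≠ 2 → (∀ k ∈ S, k ^ p = 1) → Subgroup.closure (S : Set G) = K →
    ∃ (D L : Type) (_ : Group D) (_ : AddCommGroup L) (ρ : D →* AddMonoid.End L) (w c : L) (i : G →* D),
      RF D ∧ Group.FG D ∧ (∀ d, ρ d c = c) ∧ c + c = 0 ∧ c ≠ 0 ∧
      (∀ l : L, l ≠ 0 → l ≠ c → ∃ (E : Type) (_ : AddCommGroup E) (_ : Finite E)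
        (τ : D →* AddMonoid.End E) (f : L →+ E), (∀ d l, f (ρ d l) = τ d (f l)) ∧ f c = 0 ∧ f l ≠ 0) ∧
      (∀ k ∈ S, ∃ (a g : D) (m' : L), ρ a (ρ (i k) w - w) = m' ∧
        ρ a m' = -((ρ (i k) w - w) + m') ∧ ρ g (ρ (i k) w - w) = (2 : ℤ) • (ρ (i k) w - w) ∧
        ρ g ((2 : ℤ) • m') = m') ∧
      (∀ g, g ∉ K → ∃ y : D, ρ y (ρ (i g) w - w) = ρ (i g) w - w + c) ∧
      ∃ y : D, ρ y w = w + c

/-- CYC: restriction to a cyclic submodule. -/
def S_CYC : Prop :=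
  S_MOD → ∀ (G : Type) [Group G] (K : Subgroup G) (S : Finset G) (p : ℕ), RF G → Group.FG G →
    p.Prime → p ≠ 2 → (∀ k ∈ S, k ^ p = 1) → Subgroup.closure (S : Set G) = K →
    ∃ (D L : Type) (_ : Group D) (_ : AddCommGroup L) (ρ : D →* AddMonoid.End L) (w c : L) (i : G →* D),
      RF D ∧ Group.FG D ∧ (∀ d, ρ d c = c) ∧ c + c = 0 ∧ c ≠ 0 ∧
      (∀ l : L, l ≠ 0 → l ≠ c → ∃ (E : Type) (_ : AddCommGroup E) (_ : Finite E)
        (τ : D →* AddMonoid.End E) (f : L →+ E), (∀ d l, f (ρ d l) = τ d (f l)) ∧ f c = 0 ∧ f l ≠ 0) ∧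
      (∀ k ∈ S, ∃ (a g : D) (m' : L), ρ a (ρ (i k) w - w) = m' ∧
        ρ a m' = -((ρ (i k) w - w) + m') ∧ ρ g (ρ (i k) w - w) = (2 : ℤ) • (ρ (i k) w - w) ∧
        ρ g ((2 : ℤ) • m') = m') ∧
      (∀ g, g ∉ K → ∃ y : D, ρ y (ρ (i g) w - w) = ρ (i g) w - w + c) ∧
      AddSubgroup.closure (Set.range fun d => ρ d w) = ⊤

/-- the shift action of a group on its finitely supported functions with values in `ℤ/2` -/
noncomputable def shf (G : Type) [Group G] : G →* MulAut (Multiplicative (G →₀ ZMod 2)) where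
  toFun g := AddEquiv.toMultiplicative (Finsupp.domCongr (Equiv.mulLeft g))
  map_one' := by
    ext1 x
    show Multiplicative.ofAdd (Finsupp.equivMapDomain (Equiv.mulLeft 1) x.toAdd) = x
    rw [Equiv.mulLeft_one]
    exact congrArg Multiplicative.ofAdd (Finsupp.equivMapDomain_refl _)
  map_mul' g h := by
    ext1 x
    show Multiplicative.ofAdd (Finsupp.equivMapDomain (Equiv.mulLeft (g * h)) x.toAdd) =
      Multiplicative.ofAdd (Finsupp.equivMapDomain (Equiv.mulLeft g)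
        (Finsupp.equivMapDomain (Equiv.mulLeft h) x.toAdd))
    rw [← Finsupp.equivMapDomain_trans]
    congr 1
    congr 1
    ext y
    exact mul_assoc _ _ _

/-- the lamplighter group over `G` -/
abbrev LL (G : Type) [Group G] := Multiplicative (G →₀ ZMod 2) ⋊[shf G] G

/-- LRF: the acting group is residually finite and finitely generated. -/
def S_LRF : Prop :=
  ∀ (G : Type) [Group G] (n : ℕ), RF G → Group.FG G →
    RF (LL G × FreeGroup (Fin n)) ∧ Group.FG (LL G × FreeGroup (Fin n))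

/-! ### Part 4: the pair -/

/-- PAIR: a residually finite group with a non-sofic transitive action whose stabiliser is
generated by finitely many elements of odd prime order. -/
def S_PAIRP : Prop :=
  ∃ (G : Type) (_ : Group G) (K : Subgroup G) (S : Finset G) (p : ℕ), RF G ∧ Group.FG G ∧
    p.Prime ∧ p ≠ 2 ∧ (∀ k ∈ S, k ^ p = 1) ∧ Subgroup.closure (S : Set G) = K ∧
    ¬ Pool.Agent.N540.SA.IsSofic (MulAction.toPermHom G (G ⧸ K))

/-! ### Part 5: the conclusion -/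

/-- The final statement. -/
def Goal : Prop :=
  ∃ (P : Type) (_ : Group P) (Z : Subgroup P) (_ : Z.Normal), Nat.card Z = 2 ∧
    (∀ x : P ⧸ Z, x ≠ 1 → ∃ (Q : Type) (_ : Group Q) (_ : Finite Q) (φ : P ⧸ Z →* Q), φ x ≠ 1) ∧
    ¬ IsSofic P

end Pool.Agent.N513.CE
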