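import Pool.Agent.N303.KT.ORD
import Pool.Agent.N513.CE.Stm

/-!
# Theorem A with the transport
-/

set_option autoImplicit false

namespace Pool.Agent.N513.CE

open Finset Filter
open Pool.Agent.N303.KS
open Pool.Agent.N303.KT (Lp IsF exists_F isF_mul isF_ne isF_conj ar_sq sofic_words')
open Pool.Agent.H21R2 (IsSofic)
open Pool.Agent.W661.RC (HasT)

noncomputable section

variable {V : Type} [Fintype V] {k : ℕ}
variable {ρ : FreeGroup (Fin k) →* Equiv.Perm V} {Z : V → Prop} {κ τ τ₁ Λ : ℝ}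
  {L : V → Option V} {Y : Finset (AD V)}

/-- transport of loops -/
theorem lp_conj (hY : Rep ρ κ τ τ₁ L Y) (hS : Sys ρ Z κ τ τ₁ L) (hn : Num k κ τ τ₁ Λ) {i j : V}
    {g : Equiv.Perm V} (hg : Ok ρ Z Λ g) (hm : Mv κ L g i j) {φ : Equiv.Perm Y}
    (hφ : ∀ a b : Y, AR κ L g g a.1 b.1 → φ a = b) (a : Y) :
    (Lp i a.1 ↔ Lp j (φ a).1) ∧ (Lp i a.1 → AR κ L g g a.1 (φ a).1) := by
  obtain ⟨w, w', hw, hw', hg1, hg2⟩ := hg
  have hex : ∀ a : Y, Lp i a.1 → Lp j (φ a).1 ∧ AR κ L g g a.1 (φ a).1 := by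
    intro a ha
    obtain ⟨b, hb, hb1, hb2, hb3, -⟩ := ar_exists hY hS hn hw hg1 hg1 a.2 (i' := j) (j' := j)
      (by rw [ha.1]; exact hm) (by rw [ha.2]; exact hm)
    rw [hφ a ⟨b, hb⟩ hb3]
    exact ⟨⟨hb1, hb2⟩, hb3⟩
  have hnot : ∀ a : Y, Lp j (φ a).1 → Lp i a.1 := by
    intro a hb
    obtain ⟨a', ha', e1, e2, e3⟩ := ar_surj hY hS hn hw' hg2 hg2 (φ a).2 (i := i) (j := i)
      (by rw [hb.1]; exact hm) (by rw [hb.2]; exact hm)
    have h3 := hφ ⟨a', ha'⟩ (φ a) e3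
    have h4 := φ.injective h3
    rw [← h4]
    exact ⟨e1, e2⟩
  exact ⟨⟨fun h => (hex a h).1, hnot a⟩, fun h => (hex a h).2⟩

/-- multiplicativity of the transport on the loops -/
theorem lp_mul (hY : Rep ρ κ τ τ₁ L Y) (hS : Sys ρ Z κ τ τ₁ L) (hn : Num k κ τ τ₁ Λ) {i j l : V}
    {g h gh : Equiv.Perm V} (hg : Ok ρ Z Λ g) (hh : Ok ρ Z Λ h) (hgh : Ok ρ Z Λ gh)
    (hm : Mv κ L h i j) (hm' : Mv κ L g j l) (hm'' : Mv κ L gh i l)
    (he : ∀ x, ¬ Z x → g (h x) = gh x) {φg φh φ : Equiv.Perm Y}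
    (hφg : ∀ a b : Y, AR κ L g g a.1 b.1 → φg a = b)
    (hφh : ∀ a b : Y, AR κ L h h a.1 b.1 → φh a = b)
    (hφ : ∀ a b : Y, AR κ L gh gh a.1 b.1 → φ a = b) (a : Y) (ha : Lp i a.1) :
    φ a = φg (φh a) := by
  obtain ⟨a1, a2⟩ := lp_conj hY hS hn hh hm hφh a
  obtain ⟨b1, b2⟩ := lp_conj hY hS hn hg hm' hφg (φh a)
  obtain ⟨c1, c2⟩ := lp_conj hY hS hn hgh hm'' hφ a
  refine Subtype.ext ?_
  exact (ar_sq hY hS hn (α₁ := g) (α₂ := g) (β₁ := h) (β₂ := h) (γ₁ := gh) (γ₂ := gh) (δ₁ := 1)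
    (δ₂ := 1) (fun x hx => he x hx) (fun x hx => he x hx) a.2 (φg (φh a)).2 (φ a).2 (a2 ha)
    (b2 (a1.1 ha)) (ar_one hY hn a.2) (c2 ha)).symm

theorem t_AT : ThmAT := by
  classical
  intro P _ N hNn hP hT FL BB hFL δ hδ
  set FG : Finset P := BB ∪ (BB ×ˢ BB).image fun p => p.1 * p.2 with hFGd
  have hFG : ∀ g ∈ FG, ∀ n : P, n ∈ N ↔ g * n * g⁻¹ ∈ N := by
    intro g _ n
    refine ⟨fun h => hNn.conj_mem n h g, fun h => ?_⟩
    have h1 := hNn.conj_mem _ h g⁻¹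
    have h2 : g⁻¹ * (g * n * g⁻¹) * g⁻¹⁻¹ = n := by group
    rwa [h2] at h1
  obtain ⟨k, γ, hγ⟩ := Pool.Agent.N303.KQ.exists_free hT
  -- words
  have hu : ∀ l : P, ∃ w : FreeGroup (Fin k), l ∈ N → ((γ w : N) : P) = l := by
    intro l
    by_cases hl : l ∈ N
    · obtain ⟨w, hw⟩ := hγ ⟨l, hl⟩
      exact ⟨w, fun _ => by rw [hw]⟩
    · exact ⟨1, fun h => absurd h hl⟩
  have hW : ∀ (a : P) (s : Fin k), ∃ w : FreeGroup (Fin k), a ∈ FG →
      ((γ (FreeGroup.of s) : N) : P) * a = a * (γ w : N) := by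
    intro a s
    by_cases ha : a ∈ FG
    · have h2 : a⁻¹ * (γ (FreeGroup.of s) : N) * a ∈ N := by
        rw [hFG a ha]
        have h3 : a * (a⁻¹ * (γ (FreeGroup.of s) : N) * a) * a⁻¹ = (γ (FreeGroup.of s) : N) := by
          group
        rw [h3]
        exact (γ (FreeGroup.of s)).2
      obtain ⟨w, hw⟩ := hγ ⟨_, h2⟩
      refine ⟨w, fun _ => ?_⟩
      rw [hw]
      simp only
      group
    · exact ⟨1, fun h => absurd h ha⟩
  have hW' : ∀ (a : P) (s : Fin k), ∃ w : FreeGroup (Fin k), a ∈ FG →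
      ((γ (FreeGroup.of s) : N) : P) * a⁻¹ = a⁻¹ * (γ w : N) := by
    intro a s
    by_cases ha : a ∈ FG
    · have h2 : a * (γ (FreeGroup.of s) : N) * a⁻¹ ∈ N := (hFG a ha _).1 (γ (FreeGroup.of s)).2
      obtain ⟨w, hw⟩ := hγ ⟨_, h2⟩
      refine ⟨w, fun _ => ?_⟩
      rw [hw]
      simp only
      group
    · exact ⟨1, fun h => absurd h ha⟩
  choose u hu using hu
  choose W hW using hW
  choose W' hW' using hW'
  -- lengths
  choose len hlen using fun w : FreeGroup (Fin k) => word_bd w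
  set 𝒲 : Finset (FreeGroup (Fin k)) := ((FG ×ˢ (univ : Finset (Fin k))).image fun p => W p.1 p.2) ∪
    ((FG ×ˢ (univ : Finset (Fin k))).image fun p => W' p.1 p.2) ∪
    ((univ : Finset (Fin k)).image fun s => FreeGroup.of s) ∪
    (FL.image u) with h𝒲
  set Λ : ℝ := 1 + ∑ w ∈ 𝒲, (len w : ℝ) with hΛ
  have hΛ0 : (0 : ℝ) ≤ ∑ w ∈ 𝒲, (len w : ℝ) := sum_nonneg fun _ _ => Nat.cast_nonneg _
  have hΛ1 : 1 ≤ Λ := by rw [hΛ]; linarith
  have hlenΛ : ∀ w ∈ 𝒲, ∀ (B : Type) [Fintype B] (ρ : FreeGroup (Fin k) →* Equiv.Perm B)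
      (p : B → Prop), (ct fun a => p a ∧ ¬ p (ρ w a)) ≤ Λ * bd ρ p := by
    intro w hw B _ ρ p
    refine (hlen w B ρ p).trans (mul_le_mul_of_nonneg_right ?_ (bd_nonneg ρ p))
    have h1 : (len w : ℝ) ≤ ∑ w ∈ 𝒲, (len w : ℝ) :=
      single_le_sum (f := fun w => (len w : ℝ)) (fun _ _ => Nat.cast_nonneg _) hw
    rw [hΛ]; linarith
  -- constants
  set CC : ℝ := (FG.card : ℝ) + ((BB ×ˢ BB).card : ℝ) with hCC
  have hc0 : (0 : ℝ) ≤ CC := by positivity
  set κ : ℝ := min δ 1 / (1000 * (CC + 1)) with hκ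
  have hm0 : 0 < min δ 1 := lt_min hδ one_pos
  have hκ0 : 0 < κ := by rw [hκ]; positivity
  have hκc : κ * (1000 * (CC + 1)) = min δ 1 := by
    rw [hκ]; field_simp
  have hκ1 : κ ≤ 1 / 1000 := by
    have h1 := min_le_right δ 1
    nlinarith
  have hκδ : κ * (10 * (CC + 1)) ≤ δ := by
    have h1 := min_le_left δ 1
    nlinarith
  obtain ⟨τ, hτ0, hτκ, hsys⟩ := exists_sys γ hT hγ hκ0 (show κ ≤ 1 / 100 by linarith)
  set τ₁ : ℝ := κ * τ / ((k + 2) * (1 + Λ)) with hτ₁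
  have hk0 : (0 : ℝ) ≤ k := Nat.cast_nonneg k
  have hden : 0 < ((k : ℝ) + 2) * (1 + Λ) := by positivity
  have hτ₁0 : 0 < τ₁ := by rw [hτ₁]; positivity
  have hnum : τ₁ * ((k + 2) * (1 + Λ)) = κ * τ := by
    rw [hτ₁]; field_simp
  have hn : Num k κ τ τ₁ Λ := ⟨hκ0, by linarith, hτ0, hτκ, hτ₁0.le, hΛ1, hnum.le⟩
  obtain ⟨ε₀, hε₀, hε₀τ, Rel, hRel, hsys⟩ := hsys τ₁ hτ₁0 (by linarith [hn.a3])
  -- words in the free group on `P`
  set θ : FreeGroup (Fin k) →* FreeGroup P :=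
    FreeGroup.lift fun s => FreeGroup.of ((γ (FreeGroup.of s) : N) : P) with hθ
  have hcθ : ∀ w, cn P (θ w) = ((γ w : N) : P) := by
    intro w
    have h1 : (cn P).comp θ = N.subtype.comp γ := by
      ext s
      simp [hθ]
    exact DFunLike.congr_fun h1 w
  have hcof : ∀ q : P, cn P (FreeGroup.of q) = q := by
    intro q
    simp
  have hcu : ∀ l ∈ N, cn P (θ (u l)) = l := fun l hl => by rw [hcθ, hu l hl]
  have hFLN : ∀ l ∈ FL, l ∈ N := fun l hl => (hFL l hl).1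
  set E0 : Finset (FreeGroup P) := Rel.image θ ∪
    ((FG ×ˢ (univ : Finset (Fin k))).image fun p =>
      (FreeGroup.of p.1 * θ (W p.1 p.2))⁻¹ * (θ (FreeGroup.of p.2) * FreeGroup.of p.1)) ∪
    ((FG ×ˢ (univ : Finset (Fin k))).image fun p =>
      ((FreeGroup.of p.1)⁻¹ * θ (W' p.1 p.2))⁻¹ * (θ (FreeGroup.of p.2) * (FreeGroup.of p.1)⁻¹)) ∪
    ((FL ×ˢ (univ : Finset (Fin k))).image fun p =>
      (θ (u p.1) * θ (FreeGroup.of p.2))⁻¹ * (θ (FreeGroup.of p.2) * θ (u p.1))) ∪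
    ((FL ×ˢ FL).image fun p => (θ (u (p.1 * p.2)))⁻¹ * (θ (u p.1) * θ (u p.2))) ∪
    ((FG ×ˢ FL).image fun p =>
      (FreeGroup.of p.1 * θ (u p.2))⁻¹ * (θ (u (p.1 * p.2 * p.1⁻¹)) * FreeGroup.of p.1)) with hE0
  set E1 : Finset (FreeGroup P) := (BB ×ˢ BB).image fun p =>
      (FreeGroup.of (p.1 * p.2))⁻¹ * (FreeGroup.of p.1 * FreeGroup.of p.2) with hE1
  set E : Finset (FreeGroup P) := E0 ∪ E1 with hE
  have hEc : ∀ r ∈ E, cn P r = 1 := by
    intro r hr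
    rw [hE, mem_union] at hr
    rcases hr with hr | hr
    swap
    · rw [hE1, mem_image] at hr
      obtain ⟨p, -, rfl⟩ := hr
      rw [map_mul, map_inv, inv_mul_eq_one, map_mul, hcof, hcof, hcof]
    rw [hE0] at hr
    simp only [mem_union, mem_image, mem_product, mem_univ, and_true] at hr
    rcases hr with ((((⟨w, hw, rfl⟩ | ⟨p, hp, rfl⟩) | ⟨p, hp, rfl⟩) | ⟨p, hp, rfl⟩) |
      ⟨p, hp, rfl⟩) | ⟨p, hp, rfl⟩
    · rw [hcθ, hRel w hw]; rfl
    · rw [map_mul, map_inv, inv_mul_eq_one, map_mul, map_mul, hcθ, hcθ, hcof]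
      exact (hW p.1 p.2 hp).symm
    · rw [map_mul, map_inv, inv_mul_eq_one, map_mul, map_mul, map_inv, hcθ, hcθ, hcof]
      exact (hW' p.1 p.2 hp).symm
    · rw [map_mul, map_inv, inv_mul_eq_one, map_mul, map_mul, hcu _ (hFLN _ hp), hcθ]
      exact ((hFL p.1 hp).2 _ (γ (FreeGroup.of p.2)).2).symm
    · rw [map_mul, map_inv, inv_mul_eq_one, map_mul, hcu _ (hFLN _ hp.1), hcu _ (hFLN _ hp.2),
        hcu _ (N.mul_mem (hFLN _ hp.1) (hFLN _ hp.2))]
    · rw [map_mul, map_inv, inv_mul_eq_one, map_mul, map_mul, hcu _ (hFLN _ hp.2), hcof,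
        hcu _ ((hFG _ hp.1 _).1 (hFLN _ hp.2)), inv_mul_cancel_right]
  set E' : Finset (FreeGroup P) := (FL.filter fun l => l ≠ 1).image fun l => θ (u l) with hE'
  have hE'c : ∀ v ∈ E', cn P v ≠ 1 := by
    intro v hv
    rw [hE', mem_image] at hv
    obtain ⟨l, hl, rfl⟩ := hv
    rw [mem_filter] at hl
    rw [hcu _ (hFLN _ hl.1)]
    exact hl.2
  obtain ⟨d, hd, Ψ, hct⟩ := sofic_words' hP E E' hEc hE'c hε₀
  set ρ : FreeGroup (Fin k) →* Equiv.Perm (Fin d) := Ψ.comp θ with hρ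
  set Z : Fin d → Prop := fun y => (∃ r ∈ E, Ψ r y ≠ y) ∨ ∃ v ∈ E', Ψ v y = y with hZ
  have hZc : ct Z ≤ ε₀ * Fintype.card (Fin d) := by
    rw [Fintype.card_fin]; exact hct
  have hZE : ∀ r ∈ E, ∀ x, ¬ Z x → Ψ r x = x := by
    intro r hr x hx
    by_contra h
    exact hx (Or.inl ⟨r, hr, h⟩)
  have hZE2 : ∀ w1 w2 : FreeGroup P, w2⁻¹ * w1 ∈ E → ∀ x, ¬ Z x → Ψ w1 x = Ψ w2 x := by
    intro w1 w2 hr x hx
    have h1 := hZE _ hr x hx
    rw [map_mul, map_inv, Equiv.Perm.mul_apply, Equiv.Perm.inv_eq_iff_eq] at h1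
    exact h1
  obtain ⟨L, hS⟩ := hsys (Fin d) ρ Z hZc (by
    intro w hw x hx
    refine hZE (θ w) ?_ x hx
    rw [hE, mem_union]
    left
    rw [hE0]
    simp only [mem_union, mem_image, mem_product, mem_univ, and_true]
    exact Or.inl (Or.inl (Or.inl (Or.inl (Or.inl ⟨w, hw, rfl⟩)))))
  obtain ⟨Y, hY⟩ := exists_reps hS hn.κ1 hτ0 (by linarith [hn.a3])
  have hd0 : (0 : ℝ) < Fintype.card (Fin d) := by
    rw [Fintype.card_fin]; exact_mod_cast hd
  have hZ1 : ct Z ≤ τ₁ * Fintype.card (Fin d) :=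
    hZc.trans (mul_le_mul_of_nonneg_right hε₀τ hd0.le)
  set σ : P → Equiv.Perm (Fin d) := fun q => Ψ (FreeGroup.of q) with hσ
  have hOk : ∀ a ∈ FG, Ok ρ Z Λ (σ a) := by
    intro a ha
    refine ⟨W a, W' a, ?_, ?_, ?_, ?_⟩
    · intro s B _ ρ' p
      refine hlenΛ (W a s) ?_ B ρ' p
      rw [h𝒲]
      simp only [mem_union, mem_image, mem_product, mem_univ, and_true, true_and]
      exact Or.inl (Or.inl (Or.inl ⟨(a, s), ha, rfl⟩))
    · intro s B _ ρ' p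
      refine hlenΛ (W' a s) ?_ B ρ' p
      rw [h𝒲]
      simp only [mem_union, mem_image, mem_product, mem_univ, and_true, true_and]
      exact Or.inl (Or.inl (Or.inr ⟨(a, s), ha, rfl⟩))
    · intro s x hx
      have h1 := hZE2 (θ (FreeGroup.of s) * FreeGroup.of a) (FreeGroup.of a * θ (W a s)) (by
        rw [hE, mem_union]
        left
        rw [hE0]
        simp only [mem_union, mem_image, mem_product, mem_univ, and_true]
        exact Or.inl (Or.inl (Or.inl (Or.inl (Or.inr ⟨(a, s), ha, rfl⟩))))) x hx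
      rw [map_mul, map_mul] at h1
      exact h1
    · intro s x hx
      have h1 := hZE2 (θ (FreeGroup.of s) * (FreeGroup.of a)⁻¹) ((FreeGroup.of a)⁻¹ * θ (W' a s))
        (by
        rw [hE, mem_union]
        left
        rw [hE0]
        simp only [mem_union, mem_image, mem_product, mem_univ, and_true]
        exact Or.inl (Or.inl (Or.inl (Or.inr ⟨(a, s), ha, rfl⟩)))) x hx
      rw [map_mul, map_mul, map_inv] at h1
      exact h1
  have hwof : WB Λ fun s : Fin k => FreeGroup.of s := by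
    intro s B _ ρ' p
    refine hlenΛ (FreeGroup.of s) ?_ B ρ' p
    rw [h𝒲]
    simp only [mem_union, mem_image, mem_product, mem_univ, and_true, true_and]
    exact Or.inl (Or.inr ⟨s, rfl⟩)
  have hwu : ∀ l ∈ FL, ∀ p : Fin d → Prop,
      (ct fun x => p x ∧ ¬ p (ρ (u l) x)) ≤ Λ * bd ρ p := by
    intro l hl p
    refine hlenΛ (u l) ?_ _ ρ p
    rw [h𝒲]
    simp only [mem_union, mem_image, mem_product, mem_univ, and_true, true_and]
    exact Or.inr ⟨l, hl, rfl⟩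
  have hTwu : ∀ l ∈ FL, Tw ρ Z (fun s => FreeGroup.of s) (ρ (u l)) := by
    intro l hl s x hx
    have h1 := hZE2 (θ (FreeGroup.of s) * θ (u l)) (θ (u l) * θ (FreeGroup.of s)) (by
      rw [hE, mem_union]
      left
      rw [hE0]
      simp only [mem_union, mem_image, mem_product, mem_univ, and_true]
      exact Or.inl (Or.inl (Or.inr ⟨(l, s), hl, rfl⟩))) x hx
    rw [map_mul, map_mul] at h1
    exact h1
  have hmulu : ∀ l ∈ FL, ∀ l' ∈ FL, ∀ x, ¬ Z x → ρ (u l) (ρ (u l') x) = ρ (u (l * l')) x := by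
    intro l hl l' hl' x hx
    have h1 := hZE2 (θ (u l) * θ (u l')) (θ (u (l * l'))) (by
      rw [hE, mem_union]
      left
      rw [hE0]
      simp only [mem_union, mem_image, mem_product, mem_univ, and_true]
      exact Or.inl (Or.inr ⟨(l, l'), ⟨hl, hl'⟩, rfl⟩)) x hx
    rw [map_mul] at h1
    exact h1
  have hconj : ∀ g ∈ FG, ∀ l ∈ FL, ∀ x, ¬ Z x →
      ρ (u (g * l * g⁻¹)) (σ g x) = σ g (ρ (u l) x) := by
    intro g hg l hl x hx
    have h1 := hZE2 (θ (u (g * l * g⁻¹)) * FreeGroup.of g) (FreeGroup.of g * θ (u l)) (by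
      rw [hE, mem_union]
      left
      rw [hE0]
      simp only [mem_union, mem_image, mem_product, mem_univ, and_true]
      exact Or.inr ⟨(g, l), ⟨hg, hl⟩, rfl⟩) x hx
    rw [map_mul, map_mul] at h1
    exact h1
  have hneu : ∀ l ∈ FL, l ≠ 1 → ∀ x, ¬ Z x → ρ (u l) x ≠ x := by
    intro l hl hl1 x hx h
    apply hx
    right
    refine ⟨θ (u l), ?_, h⟩
    rw [hE', mem_image]
    exact ⟨l, mem_filter.2 ⟨hl, hl1⟩, rfl⟩
  -- the permutations
  have hF : ∀ (i : Fin d) (l : P), ∃ φ : Equiv.Perm Y, l ∈ FL → IsF κ L Y i (ρ (u l)) φ := by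
    intro i l
    by_cases hl : l ∈ FL
    · obtain ⟨φ, hφ⟩ := exists_F hY hS hn hwof (hwu l hl) (hTwu l hl) i
      exact ⟨φ, fun _ => hφ⟩
    · exact ⟨1, fun h => absurd h hl⟩
  choose F hF using hF
  choose φ hφ using fun q : P => exists_perm hY hS hn (σ q)
  set Pg : P → Fin d → Prop := fun g x =>
    ¬ ∃ i j, L x = some i ∧ Mv κ L (σ g) i j ∧ L (σ g x) = some j with hPg
  have hsum : ∑ i, sz L i ≤ Fintype.card (Fin d) := by
    rw [sum_sz]
    have := ct_nonneg fun x => L x = none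
    linarith
  have hPgc : ∀ g ∈ FG, ct (Pg g) ≤ 10 * κ * Fintype.card (Fin d) := by
    intro g hg
    obtain ⟨w, w', hw, hw', hg1, hg2⟩ := hOk g hg
    have h1 := moves hS hn.κ0 hn.κ1 hn.τ0 hZ1 (by linarith [hn.Λ1]) hw hw' hn.a2 hn.τ₁0 hg1 hg2
      (fun i => ¬ ∃ j, Mv κ L (σ g) i j) (fun i hi => hi)
    rw [ct_fiber (Pg g) L, Fintype.sum_option]
    have h2 : (ct fun x => Pg g x ∧ L x = none) ≤ κ * Fintype.card (Fin d) :=
      (ct_mono fun x hx => hx.2).trans hS.cov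
    have h3 : ∀ i, (ct fun x => Pg g x ∧ L x = some i) ≤
        κ * sz L i + if ¬ ∃ j, Mv κ L (σ g) i j then sz L i else 0 := by
      intro i
      have hi := sz_nonneg L i
      by_cases hm : ∃ j, Mv κ L (σ g) i j
      · rw [if_neg (not_not.2 hm), add_zero]
        obtain ⟨j, hj⟩ := hm
        have h4 := ct_split (fun x => L x = some i) (fun x => L (σ g x) = some j)
        have h5 := hj.le1
        have h6 : (ct fun x => Pg g x ∧ L x = some i) ≤
            ct fun x => L x = some i ∧ ¬ L (σ g x) = some j :=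
          ct_mono fun x hx => ⟨hx.2, fun h => hx.1 ⟨i, j, hx.2, hj, h⟩⟩
        unfold ov at h5
        unfold sz at *
        linarith
      · rw [if_pos hm]
        have h4 : (ct fun x => Pg g x ∧ L x = some i) ≤ sz L i := ct_mono fun x hx => hx.2
        have h5 : 0 ≤ κ * sz L i := by positivity
        linarith
    have h4 : ∑ i, (ct fun x => Pg g x ∧ L x = some i) ≤
        κ * Fintype.card (Fin d) + 8 * κ * Fintype.card (Fin d) := by
      refine (sum_le_sum fun i _ => h3 i).trans ?_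
      rw [sum_add_distrib, ← mul_sum, ← sum_filter]
      exact add_le_add (mul_le_mul_of_nonneg_left hsum hκ0.le) h1
    linarith
  have hσm : ∀ g ∈ BB, ∀ h ∈ BB, ∀ x, ¬ Z x → σ g (σ h x) = σ (g * h) x := by
    intro g hg h hh x hx
    have h1 := hZE2 (FreeGroup.of g * FreeGroup.of h) (FreeGroup.of (g * h)) (by
      rw [hE, mem_union]
      right
      rw [hE1, mem_image]
      exact ⟨(g, h), mem_product.2 ⟨hg, hh⟩, rfl⟩) x hx
    rw [map_mul] at h1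
    exact h1
  have hBF : ∀ g ∈ BB, g ∈ FG := fun g hg => by
    rw [hFGd, mem_union]
    exact Or.inl hg
  have hBF2 : ∀ g ∈ BB, ∀ h ∈ BB, g * h ∈ FG := fun g hg h hh => by
    rw [hFGd, mem_union, mem_image]
    exact Or.inr ⟨(g, h), mem_product.2 ⟨hg, hh⟩, rfl⟩
  have hPgE : ∀ (g : P) (x i : Fin d), L x = some i → ¬ Pg g x →
      ∃ j, Mv κ L (σ g) i j ∧ L (σ g x) = some j := by
    intro g x i hi h1
    rw [hPg] at h1
    simp only [not_not] at h1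
    obtain ⟨i', j, h2, h3, h4⟩ := h1
    have h5 : i' = i := by
      rw [hi, Option.some.injEq] at h2
      exact h2.symm
    subst h5
    exact ⟨j, h3, h4⟩
  haveI : Nonempty (Fin d) := ⟨⟨0, hd⟩⟩
  refine ⟨Fin d, Y, inferInstance, inferInstance, inferInstance, σ, φ,
    fun x => {a | ∃ i, L x = some i ∧ Lp i a.1},
    fun x l => (L x).elim 1 fun i => F i l,
    fun x => (L x = none ∨ Z x) ∨ ((∃ g ∈ FG, Pg g x) ∨ ∃ p ∈ BB ×ˢ BB, Pg p.1 (σ p.2 x)), ?_, ?_⟩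
  · have h1 : (ct fun x => (L x = none ∨ Z x) ∨ ((∃ g ∈ FG, Pg g x) ∨
        ∃ p ∈ BB ×ˢ BB, Pg p.1 (σ p.2 x))) ≤ (ct fun x => L x = none ∨ Z x) +
        ct fun x => ((∃ g ∈ FG, Pg g x) ∨ ∃ p ∈ BB ×ˢ BB, Pg p.1 (σ p.2 x)) :=
      ct_le_add fun x hx => hx
    have h1' : (ct fun x => L x = none ∨ Z x) ≤ (ct fun x => L x = none) + ct Z :=
      ct_le_add fun x hx => hx
    have h1'' : (ct fun x => ((∃ g ∈ FG, Pg g x) ∨ ∃ p ∈ BB ×ˢ BB, Pg p.1 (σ p.2 x))) ≤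
        (ct fun x => ∃ g ∈ FG, Pg g x) + ct fun x => ∃ p ∈ BB ×ˢ BB, Pg p.1 (σ p.2 x) :=
      ct_le_add fun x hx => hx
    have h2 : (ct fun x => ∃ g ∈ FG, Pg g x) ≤ ∑ g ∈ FG, ct (Pg g) := ct_le_sum FG _ fun x hx => hx
    have h3 : ∑ g ∈ FG, ct (Pg g) ≤ FG.card * (10 * κ * Fintype.card (Fin d)) := by
      rw [← nsmul_eq_mul]
      exact sum_le_card_nsmul _ _ _ hPgc
    have h2' : (ct fun x => ∃ p ∈ BB ×ˢ BB, Pg p.1 (σ p.2 x)) ≤
        ∑ p ∈ BB ×ˢ BB, ct fun x => Pg p.1 (σ p.2 x) :=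
      ct_le_sum (BB ×ˢ BB) (fun p x => Pg p.1 (σ p.2 x)) fun x hx => hx
    have h3' : ∑ p ∈ BB ×ˢ BB, (ct fun x => Pg p.1 (σ p.2 x)) ≤
        (BB ×ˢ BB).card * (10 * κ * Fintype.card (Fin d)) := by
      rw [← nsmul_eq_mul]
      refine sum_le_card_nsmul _ _ _ fun p hp => ?_
      rw [ct_perm (fun x => Pg p.1 x) (σ p.2)]
      exact hPgc p.1 (hBF _ (mem_product.1 hp).1)
    have h4 := hS.cov
    have h5 : κ * (10 * (CC + 1)) * Fintype.card (Fin d) ≤ δ * Fintype.card (Fin d) :=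
      mul_le_mul_of_nonneg_right hκδ hd0.le
    have h6 : κ * (10 * (CC + 1)) * Fintype.card (Fin d) =
        FG.card * (10 * κ * Fintype.card (Fin d)) +
        (BB ×ˢ BB).card * (10 * κ * Fintype.card (Fin d)) +
          10 * (κ * Fintype.card (Fin d)) := by rw [hCC]; ring
    have h7 : 0 ≤ κ * Fintype.card (Fin d) := by positivity
    have h8 : ct Z ≤ κ * Fintype.card (Fin d) := by
      refine hZ1.trans (mul_le_mul_of_nonneg_right ?_ hd0.le)
      have e1 := hn.a3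
      have e2 := hn.τκ
      have e3 := hn.κ1
      have e4 := hn.κ0
      have e5 := hn.a1
      nlinarith
    linarith
  · intro x hx
    have hx1 : L x ≠ none := fun h => hx (Or.inl (Or.inl h))
    have hxZ : ¬ Z x := fun h => hx (Or.inl (Or.inr h))
    have hx2 : ∀ g ∈ FG, ¬ Pg g x := fun g hg h => hx (Or.inr (Or.inl ⟨g, hg, h⟩))
    have hx3 : ∀ g ∈ BB, ∀ h ∈ BB, ¬ Pg g (σ h x) := fun g hg h hh h' =>
      hx (Or.inr (Or.inr ⟨(g, h), mem_product.2 ⟨hg, hh⟩, h'⟩))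
    obtain ⟨i, hi⟩ := Option.ne_none_iff_exists'.1 hx1
    have hpos : 0 < sz L i := lt_of_lt_of_le one_pos (ct_pos' (p := fun x => L x = some i) hi)
    have hLam : ∀ (x i : Fin d), L x = some i → ∀ a : Y,
        (a ∈ {a : Y | ∃ i, L x = some i ∧ Lp i a.1} ↔ Lp i a.1) := by
      intro x i hi a
      constructor
      · rintro ⟨i', h1, h2⟩
        rw [hi, Option.some.injEq] at h1
        rw [h1]
        exact h2
      · intro h
        exact ⟨i, hi, h⟩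
    refine ⟨fun a ha b hb hab => ?_, fun a ha ha1 => ?_, fun a ha y hy => ?_, fun g hg y => ?_,
      fun g hg l hl hgl => ?_, fun g hg h hh => ⟨(hσm g hg h hh x hxZ).symm, fun y hy => ?_⟩⟩
    · simp only [hi, Option.elim_some]
      exact isF_mul hY hS hn (hF i a ha) (hF i b hb) (hF i (a * b) hab) (hmulu a ha b hb)
    · simp only [hi, Option.elim_some]
      exact isF_ne hY hS hn hpos (hF i a ha) (hneu a ha ha1)
    · simp only [hi, Option.elim_some]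
      exact (hF i a ha).2 y fun h => hy ((hLam x i hi y).2 h)
    · obtain ⟨j, h3, h4⟩ := hPgE g x i hi (hx2 g (hBF g hg))
      rw [hLam x i hi, hLam _ j h4]
      exact (lp_conj hY hS hn (hOk g (hBF g hg)) h3 (hφ g) y).1
    · obtain ⟨j, h3, h4⟩ := hPgE g x i hi (hx2 g (hBF g hg))
      simp only [h4, hi, Option.elim_some]
      exact isF_conj hY hS hn (hOk g (hBF g hg)) h3 (hF i l hl) (hF j _ hgl) (hφ g)
        (hconj g (hBF g hg) l hl)
    · rw [hLam x i hi] at hy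
      obtain ⟨j, h3, h4⟩ := hPgE h x i hi (hx2 h (hBF h hh))
      obtain ⟨l, h5, h6⟩ := hPgE g (σ h x) j h4 (hx3 g hg h hh)
      obtain ⟨l', h7, h8⟩ := hPgE (g * h) x i hi (hx2 _ (hBF2 g hg h hh))
      have h9 : l' = l := by
        rw [← hσm g hg h hh x hxZ, h6, Option.some.injEq] at h8
        exact h8.symm
      subst h9
      exact lp_mul hY hS hn (hOk g (hBF g hg)) (hOk h (hBF h hh)) (hOk _ (hBF2 g hg h hh)) h3 h5 h7
        (hσm g hg h hh) (hφ g) (hφ h) (hφ (g * h)) y hy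

end

end Pool.Agent.N513.CE
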