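import Pool.Agent.N513.CE.Stm2

/-!
# Project CE: conversions between the forms of soficity, and the assembly
-/

set_option autoImplicit false

namespace Pool.Agent.N513.CE

open Finset
open Pool.Agent.H21R2 (IsSofic hamm)
open Pool.Agent.W661.RC (HasT)

/-- soficity in the form of the frozen statement -/
def Sof (G : Type) [Group G] : Prop :=
  ∀ (F : Finset G) (ε : ℝ), 0 < ε →
    ∃ n : ℕ, ∃ φ : G → Equiv.Perm (Fin n),
      (∀ g ∈ F, ∀ h ∈ F,
        (((Finset.univ.filter (fun i => φ (g * h) i ≠ (φ g * φ h) i)).card : ℝ) < ε * n)) ∧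
      (∀ g ∈ F, g ≠ 1 →
        (1 - ε) * n ≤ ((Finset.univ.filter (fun i => φ g i ≠ i)).card : ℝ))

theorem Sof.isSofic {G : Type} [Group G] (h : Sof G) : IsSofic G := by
  classical
  intro A h1 ε hε
  obtain ⟨n, φ, hm, hs⟩ := h A (ε / 2) (by positivity)
  have hn0 : (0 : ℝ) < n := by
    have := lt_of_le_of_lt (Nat.cast_nonneg _) (hm 1 h1 1 h1)
    by_contra hn
    have h2 : (n : ℝ) = 0 := le_antisymm (not_lt.1 hn) (Nat.cast_nonneg _)
    rw [h2, mul_zero] at this
    exact lt_irrefl _ this
  have hn : 1 ≤ n := by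
    have : 0 < n := by exact_mod_cast hn0
    exact this
  have hone : ((univ.filter (fun i => φ 1 i ≠ i)).card : ℝ) < ε / 2 * n := by
    have h3 := hm 1 h1 1 h1
    rw [mul_one] at h3
    refine lt_of_le_of_lt ?_ h3
    refine Nat.cast_le.2 (card_le_card ?_)
    intro i hi
    rw [mem_filter] at hi ⊢
    refine ⟨mem_univ _, fun h4 => hi.2 ?_⟩
    rw [Equiv.Perm.mul_apply] at h4
    exact ((φ 1).injective h4).symm
  refine ⟨n, hn, fun g => if g = 1 then 1 else φ g, if_pos rfl, ?_, ?_⟩
  · intro a ha b hb hab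
    have key : ((univ.filter fun i => (if a * b = 1 then (1 : Equiv.Perm (Fin n)) else φ (a * b)) i ≠
        ((if a = 1 then (1 : Equiv.Perm (Fin n)) else φ a) * (if b = 1 then 1 else φ b)) i).card : ℝ)
        < ε * n := by
      by_cases ha1 : a = 1
      · rw [if_pos ha1, ha1, one_mul, one_mul]
        simp only [ne_eq, not_true_eq_false, filter_false, card_empty, Nat.cast_zero]
        positivity
      by_cases hb1 : b = 1
      · rw [if_pos hb1, hb1, mul_one, mul_one]
        simp only [ne_eq, not_true_eq_false, filter_false, card_empty, Nat.cast_zero]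
        positivity
      rw [if_neg ha1, if_neg hb1]
      have h5 := hm a ha b hb
      by_cases hab1 : a * b = 1
      · rw [if_pos hab1]
        rw [hab1] at h5
        have h6 : (univ.filter fun i => (1 : Equiv.Perm (Fin n)) i ≠ (φ a * φ b) i) ⊆
            (univ.filter fun i => φ 1 i ≠ (φ a * φ b) i) ∪ univ.filter fun i => φ 1 i ≠ i := by
          intro i hi
          rw [mem_filter] at hi
          rw [mem_union, mem_filter, mem_filter]
          by_cases h7 : φ 1 i = i
          · left
            refine ⟨mem_univ _, ?_⟩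
            rw [h7]
            exact hi.2
          · exact Or.inr ⟨mem_univ _, h7⟩
        have h8 := (card_le_card h6).trans (card_union_le _ _)
        have h9 : ((univ.filter fun i => (1 : Equiv.Perm (Fin n)) i ≠ (φ a * φ b) i).card : ℝ) ≤
            (univ.filter fun i => φ 1 i ≠ (φ a * φ b) i).card +
              (univ.filter fun i => φ 1 i ≠ i).card := by exact_mod_cast h8
        linarith
      · rw [if_neg hab1]
        nlinarith
    rw [hamm, div_lt_iff₀ hn0]
    exact key
  · intro a ha ha1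
    rw [hamm, le_div_iff₀ hn0]
    simp only [if_neg ha1]
    have h5 := hs a ha ha1
    have h6 : (1 - ε) * n ≤ (1 - ε / 2) * n := by nlinarith
    exact h6.trans h5

theorem Sof.of_rf {G : Type} [Group G]
    (h : ∀ x : G, x ≠ 1 → ∃ (Q : Type) (_ : Group Q) (_ : Finite Q) (φ : G →* Q), φ x ≠ 1) :
    Sof G := by
  classical
  intro F ε hε
  -- the product over the nontrivial elements of `F`
  have hex : ∃ (Q' : Type) (_ : Group Q') (_ : Finite Q') (ψ : G →* Q'),
      ∀ g ∈ F, g ≠ 1 → ψ g ≠ 1 := by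
    clear hε
    induction F using Finset.induction_on with
    | empty => exact ⟨PUnit, inferInstance, inferInstance, 1, by simp⟩
    | insert a s ha ih =>
      obtain ⟨Q', _, _, ψ, hψ⟩ := ih
      by_cases ha1 : a = 1
      · refine ⟨Q', inferInstance, inferInstance, ψ, ?_⟩
        intro g hg hg1
        rcases Finset.mem_insert.1 hg with rfl | hg
        · exact absurd ha1 hg1
        · exact hψ g hg hg1
      · obtain ⟨Q1, _, _, φ1, hφ1⟩ := h a ha1
        refine ⟨Q1 × Q', inferInstance, inferInstance, φ1.prod ψ, ?_⟩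
        intro g hg hg1 h2
        rcases Finset.mem_insert.1 hg with rfl | hg
        · exact hφ1 (congrArg Prod.fst h2)
        · exact hψ g hg hg1 (congrArg Prod.snd h2)
  obtain ⟨Q', _, _, ψ, hψ⟩ := hex
  letI := Fintype.ofFinite Q'
  let e : Q' ≃ Fin (Fintype.card Q') := Fintype.equivFin Q'
  have hpos : (0 : ℝ) < Fintype.card Q' := by exact_mod_cast Fintype.card_pos
  refine ⟨Fintype.card Q', fun g => (e.permCongr (MulAction.toPerm (ψ g))), ?_, ?_⟩
  · intro g _ h _
    have h1 : (univ.filter fun i => (e.permCongr (MulAction.toPerm (ψ (g * h)))) i ≠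
        (e.permCongr (MulAction.toPerm (ψ g)) * e.permCongr (MulAction.toPerm (ψ h))) i) = ∅ := by
      rw [filter_eq_empty_iff]
      intro i _
      simp only [ne_eq, not_not]
      simp [Equiv.permCongr_apply, mul_assoc]
    rw [h1]
    simp only [card_empty, Nat.cast_zero]
    positivity
  · intro g hg hg1
    have h1 : (univ.filter fun i => (e.permCongr (MulAction.toPerm (ψ g))) i ≠ i) = univ := by
      rw [filter_eq_self]
      intro i _ h2
      apply hψ g hg hg1
      rw [Equiv.permCongr_apply] at h2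
      have h3 := e.injective (h2.trans (e.apply_symm_apply i).symm)
      rw [MulAction.toPerm_apply, smul_eq_mul] at h3
      exact mul_eq_right.1 h3
    rw [h1, card_univ, Fintype.card_fin]
    nlinarith

/-- the final statement gives the negation of the frozen statement -/
theorem frozen_of_goal (h : Goal) :
    ¬ (∀ (G : Type) [Group G] (N : Subgroup G) [N.Normal], Nat.card N = 2 →
    (∀ (F : Finset (G ⧸ N)) (ε : ℝ), 0 < ε →
      ∃ n : ℕ, ∃ φ : G ⧸ N → Equiv.Perm (Fin n),
        (∀ g ∈ F, ∀ h ∈ F,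
          (((Finset.univ.filter (fun i => φ (g * h) i ≠ (φ g * φ h) i)).card : ℝ) < ε * n)) ∧
        (∀ g ∈ F, g ≠ 1 →
          (1 - ε) * n ≤ ((Finset.univ.filter (fun i => φ g i ≠ i)).card : ℝ))) →
    (∀ (F : Finset G) (ε : ℝ), 0 < ε →
      ∃ n : ℕ, ∃ φ : G → Equiv.Perm (Fin n),
        (∀ g ∈ F, ∀ h ∈ F,
          (((Finset.univ.filter (fun i => φ (g * h) i ≠ (φ g * φ h) i)).card : ℝ) < ε * n)) ∧
        (∀ g ∈ F, g ≠ 1 →
          (1 - ε) * n ≤ ((Finset.univ.filter (fun i => φ g i ≠ i)).card : ℝ)))) := by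
  obtain ⟨P, _, Z, _, hZ, hRF, hns⟩ := h
  intro hall
  exact hns (Sof.isSofic (hall P Z hZ (Sof.of_rf hRF)))

/-- the assembly -/
theorem goal_of (hAA : ThmAA) (hODD : S_ODD) (hLB1 : S_LB1) (hLB2 : S_LB2) (hENV : S_ENV)
    (hMOD : S_MOD) (hCYC : S_CYC) (hPAIR : S_PAIRP) : Goal := by
  obtain ⟨G, _, K, S, p, hRF, hFG, hp, hp2, hSp, hSK, hns⟩ := hPAIR
  obtain ⟨D, L, _, _, ρ, w, c, i, hD, hDF, hc, hcc, hc0, hLRF, hst, hy, hcl⟩ :=
    hCYC hMOD G K S p hRF hFG hp hp2 hSp hSK
  obtain ⟨P, _, N, Z, hN, hZ, j, s, hT, hsi, hsa, hsz, hsc, hZe, hPRF⟩ :=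
    hENV D L ρ w c hD hDF hcl hc hLRF hcc hc0
  refine ⟨P, inferInstance, Z, hZ, ?_, hPRF, fun hP => hns ?_⟩
  · have hs0 : s 0 = 1 := by
      have := hsa 0 0
      rw [add_zero] at this
      exact left_eq_mul.1 this
    have h1 : (Z : Set P) = {1, s c} := by
      ext x
      exact hZe x
    have h2 : Nat.card Z = (Z : Set P).ncard := rfl
    rw [h2, h1, Set.ncard_pair]
    intro h3
    rw [← hs0] at h3
    exact hc0 (hsi h3).symm
  · exact hLB2 G K (hLB1 hAA hODD P D L G N j s ρ i K S w c hN hT hP hsi hsa hsz hsc hSK hc hcc hc0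
      hst hy)

end Pool.Agent.N513.CE
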