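import Pool.Agent.N44.NS.Defs
import Pool.Agent.W661.RC.Stm2
import Pool.Agent.H21R2.Defs
import Pool.Agent.N540.SA.Defs

/-!
# Project CE: a non-sofic central extension by `ℤ/2` of a residually finite group (definitions)
-/

set_option autoImplicit false

namespace Pool.Agent.N513.CE

open Pool.Agent.N44.NS (E3 el)

noncomputable section

/-- Full residual finiteness: finitely many elements are separated in one finite quotient. -/
def RF (G : Type) [Group G] : Prop :=
  ∀ T : Finset G, ∃ (Q : Type) (_ : Group Q) (_ : Finite Q) (φ : G →* Q), Set.InjOn φ (T : Set G)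

/-! ### The Hall group -/

/-- The matrices `(1 U W; 0 h V; 0 0 1)` with `U`, `V`, `W` in the group ring `C[D]` and `h ∈ D`. -/
@[ext] structure Hall (C D : Type) [CommRing C] [Group D] where
  U : MonoidAlgebra C D
  V : MonoidAlgebra C D
  W : MonoidAlgebra C D
  h : D

namespace Hall

variable {C D : Type} [CommRing C] [Group D]

instance : Mul (Hall C D) := ⟨fun x y =>
  ⟨y.U + x.U * MonoidAlgebra.of C D y.h, x.V + MonoidAlgebra.of C D x.h * y.V,
    x.W + y.W + x.U * y.V, x.h * y.h⟩⟩

instance : One (Hall C D) := ⟨⟨0, 0, 0, 1⟩⟩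

instance : Inv (Hall C D) := ⟨fun x =>
  ⟨-(x.U * MonoidAlgebra.of C D x.h⁻¹), -(MonoidAlgebra.of C D x.h⁻¹ * x.V),
    -x.W + x.U * MonoidAlgebra.of C D x.h⁻¹ * x.V, x.h⁻¹⟩⟩

@[simp] theorem mul_U (x y : Hall C D) : (x * y).U = y.U + x.U * MonoidAlgebra.of C D y.h := rfl
@[simp] theorem mul_V (x y : Hall C D) : (x * y).V = x.V + MonoidAlgebra.of C D x.h * y.V := rfl
@[simp] theorem mul_W (x y : Hall C D) : (x * y).W = x.W + y.W + x.U * y.V := rfl
@[simp] theorem mul_h (x y : Hall C D) : (x * y).h = x.h * y.h := rfl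
@[simp] theorem one_U : (1 : Hall C D).U = 0 := rfl
@[simp] theorem one_V : (1 : Hall C D).V = 0 := rfl
@[simp] theorem one_W : (1 : Hall C D).W = 0 := rfl
@[simp] theorem one_h : (1 : Hall C D).h = 1 := rfl
@[simp] theorem inv_U (x : Hall C D) : (x⁻¹).U = -(x.U * MonoidAlgebra.of C D x.h⁻¹) := rfl
@[simp] theorem inv_V (x : Hall C D) : (x⁻¹).V = -(MonoidAlgebra.of C D x.h⁻¹ * x.V) := rfl
@[simp] theorem inv_W (x : Hall C D) :
    (x⁻¹).W = -x.W + x.U * MonoidAlgebra.of C D x.h⁻¹ * x.V := rfl
@[simp] theorem inv_h (x : Hall C D) : (x⁻¹).h = x.h⁻¹ := rfl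

instance : Group (Hall C D) := Group.ofLeftAxioms
  (by
    intro x y z
    ext1
    · simp only [mul_U, mul_h, map_mul, add_mul, mul_assoc, add_assoc]
    · simp only [mul_V, mul_h, map_mul, mul_add, mul_assoc, add_assoc]
    · simp only [mul_W, mul_U, mul_V, mul_add, add_mul, mul_assoc]
      abel
    · simp only [mul_h, mul_assoc])
  (by
    intro x
    ext1
    · simp
    · simp [MonoidAlgebra.one_def.symm]
    · simp
    · simp)
  (by
    intro x
    ext1
    · simp only [mul_U, inv_U, one_U, neg_mul, mul_assoc]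
      rw [← map_mul, inv_mul_cancel, map_one, mul_one, add_neg_cancel]
    · simp only [mul_V, inv_V, inv_h, one_V]
      rw [neg_add_cancel]
    · simp only [mul_W, inv_W, inv_U, one_W, neg_mul]
      abel
    · simp)

/-- the action of `D` from the left -/
def act : D →* MulAut (Hall C D) where
  toFun d :=
    { toFun := fun x => ⟨MonoidAlgebra.of C D d * x.U, x.V, MonoidAlgebra.of C D d * x.W, x.h⟩
      invFun := fun x =>
        ⟨MonoidAlgebra.of C D d⁻¹ * x.U, x.V, MonoidAlgebra.of C D d⁻¹ * x.W, x.h⟩
      left_inv := by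
        intro x
        ext1
        · show MonoidAlgebra.of C D d⁻¹ * (MonoidAlgebra.of C D d * x.U) = x.U
          rw [← mul_assoc, ← map_mul, inv_mul_cancel, map_one, one_mul]
        · rfl
        · show MonoidAlgebra.of C D d⁻¹ * (MonoidAlgebra.of C D d * x.W) = x.W
          rw [← mul_assoc, ← map_mul, inv_mul_cancel, map_one, one_mul]
        · rfl
      right_inv := by
        intro x
        ext1
        · show MonoidAlgebra.of C D d * (MonoidAlgebra.of C D d⁻¹ * x.U) = x.U
          rw [← mul_assoc, ← map_mul, mul_inv_cancel, map_one, one_mul]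
        · rfl
        · show MonoidAlgebra.of C D d * (MonoidAlgebra.of C D d⁻¹ * x.W) = x.W
          rw [← mul_assoc, ← map_mul, mul_inv_cancel, map_one, one_mul]
        · rfl
      map_mul' := by
        intro x y
        ext1
        · simp only [mul_U, mul_add, mul_assoc]
        · rfl
        · simp only [mul_W, mul_add, mul_assoc]
        · rfl }
  map_one' := by
    ext x : 1
    ext1
    · show MonoidAlgebra.of C D 1 * x.U = x.U
      rw [map_one, one_mul]
    · rfl
    · show MonoidAlgebra.of C D 1 * x.W = x.W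
      rw [map_one, one_mul]
    · rfl
  map_mul' d e := by
    ext x : 1
    ext1
    · show MonoidAlgebra.of C D (d * e) * x.U = MonoidAlgebra.of C D d * (MonoidAlgebra.of C D e * x.U)
      rw [map_mul, mul_assoc]
    · rfl
    · show MonoidAlgebra.of C D (d * e) * x.W = MonoidAlgebra.of C D d * (MonoidAlgebra.of C D e * x.W)
      rw [map_mul, mul_assoc]
    · rfl

/-- the central element with entry `W` -/
def z (W : MonoidAlgebra C D) : Hall C D := ⟨0, 0, W, 1⟩

theorem z_mul (W W' : MonoidAlgebra C D) : z (W + W') = z W * z W' := by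
  ext1 <;> simp [z]

theorem z_zero : z (0 : MonoidAlgebra C D) = 1 := rfl

theorem z_inj : Function.Injective (z : MonoidAlgebra C D → Hall C D) := fun _ _ h =>
  congrArg Hall.W h

theorem z_comm (W : MonoidAlgebra C D) (x : Hall C D) : x * z W = z W * x := by
  ext1 <;> simp [z, add_comm, MonoidAlgebra.one_def.symm]

theorem act_z (d : D) (W : MonoidAlgebra C D) :
    act d (z W) = z (MonoidAlgebra.of C D d * W) := by
  ext1
  · exact mul_zero _
  · rfl
  · rfl
  · rfl

end Hall

/-! ### Functoriality of `E_3` -/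

section e3

variable {A B : Type} [Ring A] [Ring B]

/-- the map of matrix units induced by a ring homomorphism -/
def umap (f : A →+* B) : (Matrix (Fin 3) (Fin 3) A)ˣ →* (Matrix (Fin 3) (Fin 3) B)ˣ :=
  Units.map (f.mapMatrix : Matrix (Fin 3) (Fin 3) A →+* Matrix (Fin 3) (Fin 3) B).toMonoidHom

theorem umap_el (f : A →+* B) (i j : Fin 3) (h : i ≠ j) (a : A) :
    umap f (el i j h a) = el i j h (f a) := by
  apply Units.ext
  show (f.mapMatrix) (1 + Matrix.single i j a) = 1 + Matrix.single i j (f a)
  rw [map_add, map_one]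
  congr 1
  ext p q : 1
  simp only [RingHom.mapMatrix_apply, Matrix.map_apply, Matrix.single_apply]
  split_ifs
  · rfl
  · exact map_zero f

theorem umap_mem (f : A →+* B) {x : (Matrix (Fin 3) (Fin 3) A)ˣ} (hx : x ∈ E3 A) :
    umap f x ∈ E3 B := by
  have h : E3 A ≤ (E3 B).comap (umap f) := by
    refine (Subgroup.closure_le _).2 ?_
    rintro _ ⟨i, j, h, a, rfl⟩
    show umap f (el i j h a) ∈ E3 B
    rw [umap_el]
    exact Subgroup.subset_closure ⟨i, j, h, f a, rfl⟩
  exact h hx

/-- the map of elementary groups induced by a ring homomorphism -/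
def emap (f : A →+* B) : E3 A →* E3 B :=
  ((umap f).comp (E3 A).subtype).codRestrict (E3 B) fun x => umap_mem f x.2

theorem emap_val (f : A →+* B) (x : E3 A) : ((emap f x : E3 B) : (Matrix (Fin 3) (Fin 3) B)ˣ) =
    umap f (x : (Matrix (Fin 3) (Fin 3) A)ˣ) := rfl

end e3

/-- the ring homomorphism of group algebras induced by a group homomorphism -/
def amap (k : Type) [CommRing k] {X Y : Type} [Group X] [Group Y] (f : X →* Y) :
    MonoidAlgebra k X →+* MonoidAlgebra k Y := MonoidAlgebra.mapDomainRingHom k f

theorem amap_comp (k : Type) [CommRing k] {X Y Z : Type} [Group X] [Group Y] [Group Z]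
    (g : Y →* Z) (f : X →* Y) (a : MonoidAlgebra k X) :
    amap k g (amap k f a) = amap k (g.comp f) a := by
  have h : (amap k g).comp (amap k f) = amap k (g.comp f) := by
    apply MonoidAlgebra.ringHom_ext
    · intro r
      simp [amap]
    · intro x
      simp [amap]
  exact congrArg (fun t => t a) h

theorem amap_id (k : Type) [CommRing k] {X : Type} [Group X] (a : MonoidAlgebra k X) :
    amap k (MonoidHom.id X) a = a := by
  have h : amap k (MonoidHom.id X) = RingHom.id _ := by
    apply MonoidAlgebra.ringHom_ext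
    · intro r
      simp [amap]
    · intro x
      simp [amap]
  exact congrArg (fun t => t a) h

/-- the action of the automorphisms of a group on `E_3` of its group algebra -/
def eaut (k : Type) [CommRing k] (X : Type) [Group X] :
    MulAut X →* MulAut (E3 (MonoidAlgebra k X)) where
  toFun σ :=
    { toFun := emap (amap k σ.toMonoidHom)
      invFun := emap (amap k σ.symm.toMonoidHom)
      left_inv := by
        intro x
        apply Subtype.ext
        apply Units.ext
        ext i j : 1
        show amap k σ.symm.toMonoidHom (amap k σ.toMonoidHom _) = _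
        rw [amap_comp]
        have h : σ.symm.toMonoidHom.comp σ.toMonoidHom = MonoidHom.id X := by
          ext x
          simp
        rw [h]
        exact amap_id k _
      right_inv := by
        intro x
        apply Subtype.ext
        apply Units.ext
        ext i j : 1
        show amap k σ.toMonoidHom (amap k σ.symm.toMonoidHom _) = _
        rw [amap_comp]
        have h : σ.toMonoidHom.comp σ.symm.toMonoidHom = MonoidHom.id X := by
          ext x
          simp
        rw [h]
        exact amap_id k _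
      map_mul' := map_mul _ }
  map_one' := by
    ext x : 1
    apply Subtype.ext
    apply Units.ext
    ext i j : 1
    exact amap_id k _
  map_mul' σ τ := by
    ext x : 1
    apply Subtype.ext
    apply Units.ext
    ext i j : 1
    exact (amap_comp k σ.toMonoidHom τ.toMonoidHom _).symm

/-- the diagonal matrices with a group element on the diagonal -/
def dia (k : Type) [CommRing k] {X : Type} [Group X] :
    X →* (Matrix (Fin 3) (Fin 3) (MonoidAlgebra k X))ˣ :=
  (Units.map (Matrix.scalar (Fin 3) : MonoidAlgebra k X →+* _).toMonoidHom).comp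
    ((Units.map (MonoidAlgebra.of k X)).comp toUnits.toMonoidHom)

theorem dia_val (k : Type) [CommRing k] {X : Type} [Group X] (x : X) :
    ((dia k x : (Matrix (Fin 3) (Fin 3) (MonoidAlgebra k X))ˣ) : Matrix _ _ _) =
      Matrix.scalar (Fin 3) (MonoidAlgebra.of k X x) := rfl

theorem dia_comm (k : Type) [CommRing k] {X : Type} [Group X] {x : X} (hx : ∀ y, y * x = x * y)
    (M : (Matrix (Fin 3) (Fin 3) (MonoidAlgebra k X))ˣ) : M * dia k x = dia k x * M := by
  apply Units.ext
  show (M : Matrix (Fin 3) (Fin 3) (MonoidAlgebra k X)) *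
      Matrix.scalar (Fin 3) (MonoidAlgebra.of k X x) =
    Matrix.scalar (Fin 3) (MonoidAlgebra.of k X x) * (M : Matrix (Fin 3) (Fin 3) _)
  refine (Matrix.scalar_commute _ (fun r => ?_) _).symm
  have h : ∀ r : MonoidAlgebra k X, MonoidAlgebra.of k X x * r = r * MonoidAlgebra.of k X x := by
    intro r
    induction r using MonoidAlgebra.induction_on with
    | of g => rw [← map_mul, ← map_mul, hx]
    | add f g hf hg => rw [mul_add, add_mul, hf, hg]
    | smul c f hf => rw [mul_smul_comm, smul_mul_assoc, hf]
  exact h r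

theorem umap_dia (k : Type) [CommRing k] {X Y : Type} [Group X] [Group Y] (f : X →* Y) (x : X) :
    umap (amap k f) (dia k x) = dia k (f x) := by
  apply Units.ext
  show (amap k f).mapMatrix (Matrix.scalar (Fin 3) (MonoidAlgebra.of k X x)) =
    Matrix.scalar (Fin 3) (MonoidAlgebra.of k Y (f x))
  ext i j : 1
  simp only [RingHom.mapMatrix_apply, Matrix.map_apply, Matrix.scalar_apply, Matrix.diagonal_apply]
  split_ifs
  · simp [amap]
  · exact map_zero (amap k f)

/-! ### The big group -/

section PP

variable (q : ℕ) (C D : Type) [CommRing C] [Group D]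

/-- the group algebra of the Hall group -/
abbrev AA := MonoidAlgebra (ZMod q) (Hall C D)

/-- `E_3` of the group algebra of the Hall group, extended by `D` -/
abbrev PH := E3 (AA q C D) ⋊[(eaut (ZMod q) (Hall C D)).comp Hall.act] D

variable {C D}

/-- an additive subgroup of the group ring which is stable under `D` -/
def Stab (I : AddSubgroup (MonoidAlgebra C D)) : Prop :=
  ∀ d : D, ∀ x ∈ I, MonoidAlgebra.of C D d * x ∈ I

/-- the scalar matrices with entries in `I` -/
def scP (I : AddSubgroup (MonoidAlgebra C D)) : Subgroup (PH q C D) where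
  carrier := {x | ∃ W ∈ I, (x.left : (Matrix (Fin 3) (Fin 3) (AA q C D))ˣ) =
    dia (ZMod q) (Hall.z W) ∧ x.right = 1}
  one_mem' := ⟨0, I.zero_mem, by rw [Hall.z_zero, map_one]; rfl, rfl⟩
  mul_mem' := by
    rintro x y ⟨W, hW, h1, h2⟩ ⟨W', hW', h3, h4⟩
    refine ⟨W + W', I.add_mem hW hW', ?_, ?_⟩
    · rw [SemidirectProduct.mul_left, h2, map_one, MulAut.one_apply, Subgroup.coe_mul, h1, h3,
        Hall.z_mul, map_mul]
    · rw [SemidirectProduct.mul_right, h2, h4, one_mul]
  inv_mem' := by
    rintro x ⟨W, hW, h1, h2⟩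
    refine ⟨-W, I.neg_mem hW, ?_, ?_⟩
    · rw [SemidirectProduct.inv_left, h2, inv_one, map_one, MulAut.one_apply, Subgroup.coe_inv, h1,
        ← map_inv]
      congr 1
      rw [inv_eq_iff_mul_eq_one, ← Hall.z_mul, add_neg_cancel, Hall.z_zero]
    · rw [SemidirectProduct.inv_right, h2, inv_one]

theorem scP_normal {I : AddSubgroup (MonoidAlgebra C D)} (hI : Stab I) : (scP q I).Normal := by
  constructor
  rintro x ⟨W, hW, h1, h2⟩ y
  refine ⟨MonoidAlgebra.of C D y.right * W, hI _ _ hW, ?_, ?_⟩
  · have e1 : (((eaut (ZMod q) (Hall C D)).comp Hall.act) y.right x.left :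
        (Matrix (Fin 3) (Fin 3) (AA q C D))ˣ) =
        dia (ZMod q) (Hall.z (MonoidAlgebra.of C D y.right * W)) := by
      have e2 : (((eaut (ZMod q) (Hall C D)).comp Hall.act) y.right x.left :
        (Matrix (Fin 3) (Fin 3) (AA q C D))ˣ) =
        umap (amap (ZMod q) (Hall.act y.right).toMonoidHom) x.left := rfl
      rw [e2, h1, umap_dia]
      congr 1
      exact Hall.act_z _ _
    have e3 : (y * x * y⁻¹).left = y.left * (((eaut (ZMod q) (Hall C D)).comp Hall.act) y.right
        x.left) * y.left⁻¹ := by
      simp [h2]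
    rw [e3, Subgroup.coe_mul, Subgroup.coe_mul, Subgroup.coe_inv, e1,
      dia_comm (ZMod q) (fun y => Hall.z_comm _ y), mul_assoc, mul_inv_cancel, mul_one]
  · simp [h2]

end PP

end

end Pool.Agent.N513.CE
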