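import Pool.Agent.N513.CE.Mod3

/-!
# Project CE, the module, part 4: the leaf MOD
-/

set_option autoImplicit false

namespace Pool.Agent.N513.CE.Mod

open Pool.Agent.N513.CE
open MonoidAlgebra (of single)

noncomputable section

/-- residual finiteness modulo the central element -/
theorem rf_mod {G : Type} [Group G] {m p : ℕ} (hp : 0 < p) (K : Subgroup G) (hG : RF G)
    (r t : CR p) (k : Fin m → G) (hr : r * (p : CR p) = 1) (ht : t + t = 1)
    (hk : ∀ j, k j ^ p = 1) (hgood : Good K (mkI p r t k hr ht hk))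
    (l : LM (C := CR p) K) (hl : l ≠ 0) (hlc : ∀ h, l ≠ ⟨((0, 0), (0, 1)), h⟩) :
    ∃ (E : Type) (_ : AddCommGroup E) (_ : Finite E)
      (τ : LL G × FreeGroup (Fin (m + m)) →* AddMonoid.End E) (f : LM (C := CR p) K →+ E),
      (∀ d l, f (rho K hgood d l) = τ d (f l)) ∧ (∀ h, f ⟨((0, 0), (0, 1)), h⟩ = 0) ∧
        f l ≠ 0 := by
  classical
  obtain ⟨⟨⟨x1, x2⟩, s, z⟩, hx⟩ := l
  have hx' : sig K x1 = Finsupp.mapRange (Int.cast : ℤ → CR p) Int.cast_zero s := hx
  -- a nonzero coefficient
  have h1 : x1 ≠ 0 ∨ x2 ≠ 0 := by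
    by_contra hcon
    rw [not_or, not_not, not_not] at hcon
    obtain ⟨rfl, rfl⟩ := hcon
    rw [map_zero] at hx'
    have hs : s = 0 := by
      ext v
      have h2 := DFunLike.congr_fun hx' v
      rw [Finsupp.mapRange_apply, Finsupp.coe_zero, Pi.zero_apply] at h2
      rw [Finsupp.coe_zero, Pi.zero_apply]
      apply int_inj p hp
      rw [← h2, Int.cast_zero]
    subst hs
    have hz : z = 0 ∨ z = 1 := by
      have hz2 : ∀ z : ZMod 2, z = 0 ∨ z = 1 := by decide
      exact hz2 z
    rcases hz with rfl | rfl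
    · exact hl rfl
    · exact hlc hx rfl
  have h2 : ∃ g n, x1.coeff g n ≠ 0 ∨ x2.coeff g n ≠ 0 := by
    by_contra hcon
    push Not at hcon
    rcases h1 with h1 | h1
    · apply h1
      ext g n
      exact (hcon g n).1
    · apply h1
      ext g n
      exact (hcon g n).2
  obtain ⟨g0, n, hn⟩ := h2
  obtain ⟨Q, iQ, fQ, π, hπ⟩ := hG (x1.coeff.support ∪ x2.coeff.support)
  set u : CR p →+* ZMod (2 * p * n + 1) := Pi.evalRingHom _ n with hu
  have hr' : u r * (p : ZMod (2 * p * n + 1)) = 1 := by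
    have h3 : u (p : CR p) = (p : ZMod (2 * p * n + 1)) := map_natCast u p
    rw [← h3, ← map_mul, hr, map_one]
  have ht' : u t + u t = 1 := by rw [← map_add, ht, map_one]
  have hk' : ∀ j, (π (k j)) ^ p = 1 := fun j => by rw [← map_pow, hk, map_one]
  set I := mkI p r t k hr ht hk with hI
  set I' : Idem (MonoidAlgebra (ZMod (2 * p * n + 1)) Q) m :=
    mkI p (u r) (u t) (fun j => π (k j)) hr' ht' hk' with hI'
  have hfin : Finite (MonoidAlgebra (ZMod (2 * p * n + 1)) Q) := by
    have : Finite (ZMod (2 * p * n + 1)) := inferInstance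
    exact Pool.Agent.N264.CE.fin_ma _ _
  refine ⟨MonoidAlgebra (ZMod (2 * p * n + 1)) Q × MonoidAlgebra (ZMod (2 * p * n + 1)) Q,
    inferInstance, inferInstance, tau I' π,
    { toFun := fun x => (rh u π x.1.1.1, rh u π x.1.1.2)
      map_zero' := by
        show (rh u π 0, rh u π 0) = 0
        rw [map_zero]
        rfl
      map_add' := by
        intro x y
        show (rh u π (x.1.1.1 + y.1.1.1), rh u π (x.1.1.2 + y.1.1.2)) = _
        rw [map_add, map_add]
        rfl }, ?_, ?_, ?_⟩
  · intro d l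
    show (rh u π (phi I d.2 (of _ G d.1.right * l.1.1.1, of _ G d.1.right * l.1.1.2)).1,
      rh u π (phi I d.2 (of _ G d.1.right * l.1.1.1, of _ G d.1.right * l.1.1.2)).2) =
      phi I' d.2 (of _ Q (π d.1.right) * rh u π l.1.1.1, of _ Q (π d.1.right) * rh u π l.1.1.2)
    rw [phi_map I I' (rh u π) (fun j => rh_idm u π p r (k j)) ?_ d.2, map_mul, map_mul, rh_of]
    show rh u π (t • 1) = u t • 1
    rw [rh_smul, map_one]
  · intro h
    show (rh u π 0, rh u π 0) = 0
    rw [map_zero]
    rfl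
  · intro h0
    have h3 : (rh u π x1, rh u π x2) = (0, 0) := h0
    rw [Prod.mk.injEq] at h3
    have key : ∀ x : MonoidAlgebra (CR p) G, x.coeff.support ⊆
        x1.coeff.support ∪ x2.coeff.support → rh u π x = 0 → x.coeff g0 n = 0 := by
      intro x hxs h4
      by_cases hg : g0 ∈ x.coeff.support
      · have h5 := rh_coeff u π x (T := ((x1.coeff.support ∪ x2.coeff.support : Finset G) : Set G))
          (by exact_mod_cast hxs) hπ (g := g0) (by exact_mod_cast hxs hg)
        rw [h4] at h5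
        exact h5.symm
      · rw [Finsupp.notMem_support_iff] at hg
        rw [hg]
        rfl
    rcases hn with hn | hn
    · exact hn (key x1 Finset.subset_union_left h3.1)
    · exact hn (key x2 Finset.subset_union_right h3.2)

theorem t_MOD : S_MOD := by
  classical
  intro G _ K S p hG hFG hp hp2 hS hK
  obtain ⟨t, ht⟩ := half_exists p
  obtain ⟨r, hr⟩ := pinv_exists p
  set m := S.card with hm
  set k : Fin m → G := fun j => (S.equivFin.symm j : G) with hkdef
  have hkS : ∀ j, k j ∈ S := fun j => (S.equivFin.symm j).2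
  have hk : ∀ j, k j ^ p = 1 := fun j => hS _ (hkS j)
  have hkK : ∀ j, k j ∈ K := fun j => by
    rw [← hK]
    exact Subgroup.subset_closure (hkS j)
  set I := mkI p r t k hr ht hk with hI
  have hgood : Good K I := fun j x => sig_idm K (hkK j) hr x
  have hwm : (((1 : MonoidAlgebra (CR p) G), (0 : MonoidAlgebra (CR p) G)),
      ((Finsupp.single (QuotientGroup.mk (1 : G) : G ⧸ K) (1 : ℤ), (0 : ZMod 2)))) ∈
      LM (C := CR p) K := by
    rw [mem_LM]
    show sig K (1 : MonoidAlgebra (CR p) G) = _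
    rw [MonoidAlgebra.one_def, sig_single, Finsupp.mapRange_single, Int.cast_one]
  have hcm : (((0 : MonoidAlgebra (CR p) G), (0 : MonoidAlgebra (CR p) G)),
      ((0 : (G ⧸ K) →₀ ℤ), (1 : ZMod 2))) ∈ LM (C := CR p) K := by
    rw [mem_LM]
    show sig K (0 : MonoidAlgebra (CR p) G) = _
    rw [map_zero, Finsupp.mapRange_zero]
  set w : LM (C := CR p) K := ⟨_, hwm⟩ with hw
  set c : LM (C := CR p) K := ⟨_, hcm⟩ with hc
  obtain ⟨hrf, hfg⟩ := Pool.Agent.N170.CE.t_LRF G (m + m) hG hFG
  set i : G →* LL G × FreeGroup (Fin (m + m)) :=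
    (MonoidHom.inl (LL G) (FreeGroup (Fin (m + m)))).comp SemidirectProduct.inr with hi
  have hic : ∀ g : G, (rho K hgood (i g) w : Amb (CR p) K) =
      ((of _ G g, 0), (Finsupp.single (QuotientGroup.mk g : G ⧸ K) (1 : ℤ), 0)) := by
    intro g
    rw [rho_val]
    show act K I ((SemidirectProduct.inr g : LL G), 1) _ = _
    unfold act
    show (phi I 1 (of _ G g * 1, of _ G g * 0), (Finsupp.mapDomain (fun v => g • v)
      (Finsupp.single (QuotientGroup.mk (1 : G) : G ⧸ K) (1 : ℤ)), (0 : ZMod 2) +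
        pr K 0 _)) = _
    rw [phi_one, mul_one, mul_zero, pr_zero, add_zero, Finsupp.mapDomain_single]
    have h : g • (QuotientGroup.mk (1 : G) : G ⧸ K) = QuotientGroup.mk g := by
      show (QuotientGroup.mk (g * 1) : G ⧸ K) = _
      rw [mul_one]
    rw [h]
  have hlamp : ∀ x : Amb (CR p) K, act K I ((SemidirectProduct.inl (Multiplicative.ofAdd
      (Finsupp.single (1 : G) (1 : ZMod 2))) : LL G), 1) x =
      (x.1, (x.2.1, x.2.2 + ((x.2.1 (QuotientGroup.mk (1 : G)) : ℤ) : ZMod 2))) := by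
    intro x
    have h1 : Finsupp.mapDomain (fun v => (1 : G) • v) x.2.1 = x.2.1 := by
      have : (fun v : G ⧸ K => (1 : G) • v) = id := by
        funext v
        exact one_smul _ _
      rw [this, Finsupp.mapDomain_id]
    unfold act
    show (phi I 1 (of _ G 1 * x.1.1, of _ G 1 * x.1.2), (Finsupp.mapDomain (fun v => (1 : G) • v)
      x.2.1, x.2.2 + pr K (Finsupp.single (1 : G) (1 : ZMod 2)) (Finsupp.mapDomain
        (fun v => (1 : G) • v) x.2.1))) = _
    rw [phi_one, map_one, one_mul, one_mul, h1, pr_single, one_mul]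
  refine ⟨LL G × FreeGroup (Fin (m + m)), LM (C := CR p) K, inferInstance, inferInstance,
    rho K hgood, w, c, i, hrf, hfg, ?_, ?_, ?_, ?_, ?_, ?_, ?_⟩
  · intro d
    apply Subtype.ext
    rw [rho_val]
    refine Prod.ext ?_ (Prod.ext ?_ ?_)
    · show phi I d.2 (of _ G d.1.right * 0, of _ G d.1.right * 0) = 0
      rw [mul_zero]
      exact map_zero _
    · exact Finsupp.mapDomain_zero (f := fun v : G ⧸ K => d.1.right • v)
    · show (1 : ZMod 2) + pr K d.1.left.toAdd (Finsupp.mapDomain (fun v => d.1.right • v) 0) = 1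
      rw [Finsupp.mapDomain_zero, pr_zero_right, add_zero]
  · apply Subtype.ext
    refine Prod.ext ?_ (Prod.ext ?_ ?_)
    · show ((0 : MonoidAlgebra (CR p) G) + 0, (0 : MonoidAlgebra (CR p) G) + 0) = 0
      rw [add_zero]
      rfl
    · exact add_zero _
    · show (1 : ZMod 2) + 1 = 0
      decide
  · intro h
    have h1 : (1 : ZMod 2) = 0 := congrArg (fun x : LM (C := CR p) K => x.1.2.2) h
    exact absurd h1 (by decide)
  · intro l hl hlc
    obtain ⟨E, iE, fE, τ, f, h1, h2, h3⟩ :=
      rf_mod hp.pos K hG r t k hr ht hk hgood l hl (fun h => hlc)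
    exact ⟨E, iE, fE, τ, f, h1, h2 hcm, h3⟩
  · intro k0 hk0
    set j : Fin m := S.equivFin ⟨k0, hk0⟩ with hj
    have hkj : k j = k0 := by
      rw [hkdef, hj]
      simp
    have hkK0 : k0 ∈ K := hkj ▸ hkK j
    have hidm : ((of (CR p) G k0 : MonoidAlgebra (CR p) G) - 1) * I.e j = of (CR p) G k0 - 1 := by
      have := idm_left (C := CR p) (r := r) (hk j)
      rw [← hkj]
      exact this
    have hmv : ((rho K hgood (i k0) w - w : LM (C := CR p) K) : Amb (CR p) K) =
        ((of _ G k0 - 1, 0), (0, 0)) := by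
      show (rho K hgood (i k0) w : Amb (CR p) K) - (w : Amb (CR p) K) = _
      rw [hic]
      refine Prod.ext (Prod.ext rfl (sub_zero _)) (Prod.ext ?_ (sub_zero _))
      show Finsupp.single (QuotientGroup.mk k0 : G ⧸ K) (1 : ℤ) -
        Finsupp.single (QuotientGroup.mk (1 : G) : G ⧸ K) (1 : ℤ) = 0
      have h : (QuotientGroup.mk k0 : G ⧸ K) = QuotientGroup.mk (1 : G) :=
        QuotientGroup.eq.2 (by simpa using hkK0)
      rw [h, sub_self]
    set y : MonoidAlgebra (CR p) G := of _ G k0 - 1 with hy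
    set a : LL G × FreeGroup (Fin (m + m)) := (1, FreeGroup.of (Fin.castAdd m j)) with ha
    set g : LL G × FreeGroup (Fin (m + m)) := (1, FreeGroup.of (Fin.natAdd m j)) with hg
    have hact : ∀ (f : FreeGroup (Fin (m + m))) (q : MonoidAlgebra (CR p) G × MonoidAlgebra (CR p) G),
        act K I ((1 : LL G), f) ((q, (0, 0)) : Amb (CR p) K) = (phi I f q, (0, 0)) := by
      intro f q
      unfold act
      show (phi I f (of _ G 1 * q.1, of _ G 1 * q.2), (Finsupp.mapDomain (fun v => (1 : G) • v)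
        0, (0 : ZMod 2) + pr K 0 _)) = _
      rw [map_one, one_mul, one_mul, pr_zero, add_zero, Finsupp.mapDomain_zero]
    have hm1 : (rho K hgood a (rho K hgood (i k0) w - w) : Amb (CR p) K) = ((0, y), (0, 0)) := by
      rw [rho_val, hmv, hact, phi_a]
      refine Prod.ext (Prod.ext ?_ ?_) rfl
      · show y * (1 - I.e j) - 0 * I.e j = 0
        rw [mul_sub, mul_one, hidm, sub_self, zero_mul, sub_zero]
      · show y * I.e j + 0 * (1 - I.e j - I.e j) = y
        rw [hidm, zero_mul, add_zero]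
    refine ⟨a, g, rho K hgood a (rho K hgood (i k0) w - w), rfl, ?_, ?_, ?_⟩
    · apply Subtype.ext
      rw [rho_val, hm1, hact, phi_a]
      show ((0 * (1 - I.e j) - y * I.e j, 0 * I.e j + y * (1 - I.e j - I.e j)), ((0, 0) :
        ((G ⧸ K) →₀ ℤ) × ZMod 2)) = -(((rho K hgood (i k0) w - w : LM (C := CR p) K) :
          Amb (CR p) K) + (rho K hgood a (rho K hgood (i k0) w - w) : Amb (CR p) K))
      rw [hm1, hmv]
      refine Prod.ext (Prod.ext ?_ ?_) (Prod.ext ?_ ?_)
      · show 0 * (1 - I.e j) - y * I.e j = -(y + 0)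
        rw [zero_mul, zero_sub, hidm, add_zero]
      · show 0 * I.e j + y * (1 - I.e j - I.e j) = -(0 + y)
        rw [zero_mul, zero_add, mul_sub, mul_sub, mul_one, hidm, sub_self, zero_sub, zero_add]
      · show (0 : (G ⧸ K) →₀ ℤ) = -(0 + 0)
        rw [add_zero, neg_zero]
      · show (0 : ZMod 2) = -(0 + 0)
        rw [add_zero, neg_zero]
    · apply Subtype.ext
      rw [rho_val, hmv, hact, phi_g, two_smul]
      show _ = ((rho K hgood (i k0) w - w : LM (C := CR p) K) : Amb (CR p) K) +
        ((rho K hgood (i k0) w - w : LM (C := CR p) K) : Amb (CR p) K)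
      rw [hmv]
      refine Prod.ext (Prod.ext ?_ ?_) (Prod.ext ?_ ?_)
      · show y * (1 + I.e j) = y + y
        rw [mul_add, mul_one, hidm]
      · show 0 * (1 - I.e j * I.t) = (0 + 0 : MonoidAlgebra (CR p) G)
        rw [zero_mul, add_zero]
      · exact (add_zero _).symm
      · exact (add_zero _).symm
    · apply Subtype.ext
      rw [rho_val, two_smul]
      show act K I g ((rho K hgood a (rho K hgood (i k0) w - w) : Amb (CR p) K) +
        (rho K hgood a (rho K hgood (i k0) w - w) : Amb (CR p) K)) = _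
      rw [hm1]
      have h5 : ((((0, y), (0, 0)) : Amb (CR p) K) + ((0, y), (0, 0))) = ((0, y + y), (0, 0)) := by
        refine Prod.ext (Prod.ext ?_ rfl) (Prod.ext ?_ ?_)
        · exact add_zero _
        · exact add_zero _
        · exact add_zero _
      rw [h5, hact, phi_g]
      refine Prod.ext (Prod.ext ?_ ?_) rfl
      · show 0 * (1 + I.e j) = (0 : MonoidAlgebra (CR p) G)
        rw [zero_mul]
      · show (y + y) * (1 - I.e j * I.t) = y
        have h6 : (y + y) * (I.e j * I.t) = y := by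
          rw [← mul_assoc, add_mul, hidm, ← I.ht, mul_add, ← add_mul, I.htt, one_mul]
        rw [mul_sub, mul_one, h6, add_sub_cancel_right]
  · intro g hg
    refine ⟨((SemidirectProduct.inl (Multiplicative.ofAdd (Finsupp.single (1 : G) (1 : ZMod 2))) :
      LL G), 1), ?_⟩
    apply Subtype.ext
    rw [rho_val, hlamp]
    show _ = ((rho K hgood (i g) w : Amb (CR p) K) - (w : Amb (CR p) K)) + (c : Amb (CR p) K)
    have h1 : ((rho K hgood (i g) w - w : LM (C := CR p) K) : Amb (CR p) K) =
        (rho K hgood (i g) w : Amb (CR p) K) - (w : Amb (CR p) K) := rfl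
    rw [h1, hic]
    refine Prod.ext (Prod.ext ?_ ?_) (Prod.ext ?_ ?_)
    · exact (add_zero _).symm
    · exact (add_zero _).symm
    · exact (add_zero _).symm
    · show ((0 : ZMod 2) - 0) + (((Finsupp.single (QuotientGroup.mk g : G ⧸ K) (1 : ℤ) -
        Finsupp.single (QuotientGroup.mk (1 : G) : G ⧸ K) (1 : ℤ)) (QuotientGroup.mk 1) : ℤ) :
          ZMod 2) = ((0 : ZMod 2) - 0) + 1
      have h2 : (QuotientGroup.mk g : G ⧸ K) ≠ QuotientGroup.mk (1 : G) := by
        intro h
        apply hg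
        have h3 := QuotientGroup.eq.1 h
        simpa using h3
      rw [Finsupp.sub_apply, Finsupp.single_eq_same, Finsupp.single_eq_of_ne' h2]
      decide
  · refine ⟨((SemidirectProduct.inl (Multiplicative.ofAdd (Finsupp.single (1 : G) (1 : ZMod 2))) :
      LL G), 1), ?_⟩
    apply Subtype.ext
    rw [rho_val, hlamp]
    refine Prod.ext (Prod.ext ?_ ?_) (Prod.ext ?_ ?_)
    · exact (add_zero _).symm
    · exact (add_zero _).symm
    · exact (add_zero _).symm
    · show (0 : ZMod 2) + (((Finsupp.single (QuotientGroup.mk (1 : G) : G ⧸ K) (1 : ℤ))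
        (QuotientGroup.mk 1) : ℤ) : ZMod 2) = (0 : ZMod 2) + 1
      rw [Finsupp.single_eq_same]
      decide

end

end Pool.Agent.N513.CE.Mod
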