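import Pool.Agent.N513.CE.FinM
import Pool.Agent.N513.CE.Mod4

/-!
# Project CE: a non-sofic central extension by `ℤ/2` of a residually finite group
-/

set_option autoImplicit false

namespace Pool.Agent.N513.CE

/-- There is a non-sofic group `P` with a normal subgroup `Z` of order two such that `P ⧸ Z` is
residually finite. -/
theorem goal : Goal := goal_of_mod Mod.t_MOD

end Pool.Agent.N513.CE
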