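import Pool.Agent.N383.CE.RIG
import Pool.Agent.N953.CE.ODD
import Pool.Agent.N284.CE.OCL
import Pool.Agent.N78.CE.LB1
import Pool.Agent.N281.CE.LB2
import Pool.Agent.N289.CE.Tel
import Pool.Agent.N75.CE.HFG
import Pool.Agent.N362.CE.DIA
import Pool.Agent.N901.CE.HRJ
import Pool.Agent.N264.CE.FINQ
import Pool.Agent.N701.CE.SEP
import Pool.Agent.N221.CE.ENVR
import Pool.Agent.N129.CE.CYC
import Pool.Agent.N289.CE.PairP
import Pool.Agent.N513.CE.AT
import Pool.Agent.N513.CE.Cnv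

/-!
# Project CE: the assembly, from the module
-/

set_option autoImplicit false

namespace Pool.Agent.N513.CE

theorem t_AA : ThmAA := Pool.Agent.N383.CE.t_RIG t_AT

theorem t_ENV : S_ENV :=
  Pool.Agent.N221.CE.t_ENVR Pool.Agent.N289.CE.t_tel Pool.Agent.N75.CE.t_HFG
    Pool.Agent.N362.CE.t_DIA
    (Pool.Agent.N701.CE.t_SEP Pool.Agent.N901.CE.t_HRJ Pool.Agent.N264.CE.t_FINQ)

theorem goal_of_mod (h : S_MOD) : Goal :=
  goal_of t_AA Pool.Agent.N953.CE.t_ODD (Pool.Agent.N78.CE.t_LB1 Pool.Agent.N284.CE.t_OCL)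
    Pool.Agent.N281.CE.t_LB2 t_ENV h Pool.Agent.N129.CE.t_CYC Pool.Agent.N289.CE.t_pairp

end Pool.Agent.N513.CE
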