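import Pool.Agent.N234.CE.STR

/-!
# Project CE, the module, part 1: the action of a free group on `R × R`
-/

set_option autoImplicit false

namespace Pool.Agent.N513.CE.Mod

open Pool.Agent.N513.CE

noncomputable section

/-- idempotents and a half -/
structure Idem (R : Type) [Ring R] (m : ℕ) where
  e : Fin m → R
  t : R
  he : ∀ j, e j * e j = e j
  ht : ∀ x, t * x = x * t
  htt : t + t = 1

variable {R R' : Type} [Ring R] [Ring R'] {m : ℕ}

/-- the automorphism of order three -/
def aGen (I : Idem R m) (j : Fin m) : (R × R) ≃+ (R × R) :=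
  (Pool.Agent.N234.CE.t_STR R (I.e j) I.t (I.he j) I.ht I.htt).choose

/-- the stretching -/
def gGen (I : Idem R m) (j : Fin m) : (R × R) ≃+ (R × R) :=
  (Pool.Agent.N234.CE.t_STR R (I.e j) I.t (I.he j) I.ht I.htt).choose_spec.choose

theorem aGen_apply (I : Idem R m) (j : Fin m) (x : R × R) :
    aGen I j x = (x.1 * (1 - I.e j) - x.2 * I.e j, x.1 * I.e j + x.2 * (1 - I.e j - I.e j)) :=
  (Pool.Agent.N234.CE.t_STR R (I.e j) I.t (I.he j) I.ht I.htt).choose_spec.choose_spec.1 x

theorem gGen_apply (I : Idem R m) (j : Fin m) (x : R × R) :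
    gGen I j x = (x.1 * (1 + I.e j), x.2 * (1 - I.e j * I.t)) :=
  (Pool.Agent.N234.CE.t_STR R (I.e j) I.t (I.he j) I.ht I.htt).choose_spec.choose_spec.2 x

/-- an additive automorphism as a unit -/
def toU {A : Type} [AddCommGroup A] (f : A ≃+ A) : (AddMonoid.End A)ˣ where
  val := f.toAddMonoidHom
  inv := f.symm.toAddMonoidHom
  val_inv := by
    ext x
    exact f.apply_symm_apply x
  inv_val := by
    ext x
    exact f.symm_apply_apply x

/-- the generators -/
def gen (I : Idem R m) : Fin (m + m) → (AddMonoid.End (R × R))ˣ :=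
  Fin.append (fun j => toU (aGen I j)) (fun j => toU (gGen I j))

/-- the action of the free group -/
def Phi (I : Idem R m) : FreeGroup (Fin (m + m)) →* (AddMonoid.End (R × R))ˣ :=
  FreeGroup.lift (gen I)

/-- the action of the free group, as an endomorphism -/
def phi (I : Idem R m) (f : FreeGroup (Fin (m + m))) (x : R × R) : R × R :=
  ((Phi I f : (AddMonoid.End (R × R))ˣ) : AddMonoid.End (R × R)) x

theorem phi_one (I : Idem R m) (x : R × R) : phi I 1 x = x := by
  unfold phi
  rw [map_one]
  rfl

theorem phi_mul (I : Idem R m) (f g : FreeGroup (Fin (m + m))) (x : R × R) :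
    phi I (f * g) x = phi I f (phi I g x) := by
  unfold phi
  rw [map_mul]
  rfl

theorem phi_add (I : Idem R m) (f : FreeGroup (Fin (m + m))) (x y : R × R) :
    phi I f (x + y) = phi I f x + phi I f y := map_add _ x y

theorem phi_a (I : Idem R m) (j : Fin m) (x : R × R) :
    phi I (FreeGroup.of (Fin.castAdd m j)) x =
      (x.1 * (1 - I.e j) - x.2 * I.e j, x.1 * I.e j + x.2 * (1 - I.e j - I.e j)) := by
  unfold phi Phi gen
  rw [FreeGroup.lift_apply_of, Fin.append_left]
  exact aGen_apply I j x

theorem phi_g (I : Idem R m) (j : Fin m) (x : R × R) :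
    phi I (FreeGroup.of (Fin.natAdd m j)) x = (x.1 * (1 + I.e j), x.2 * (1 - I.e j * I.t)) := by
  unfold phi Phi gen
  rw [FreeGroup.lift_apply_of, Fin.append_right]
  exact gGen_apply I j x

theorem phi_of (I : Idem R m) (P : FreeGroup (Fin (m + m)) → Prop)
    (h1 : ∀ j, P (FreeGroup.of (Fin.castAdd m j))) (h2 : ∀ j, P (FreeGroup.of (Fin.natAdd m j)))
    (i : Fin (m + m)) : P (FreeGroup.of i) := by
  refine Fin.addCases (fun j => h1 j) (fun j => h2 j) i

/-- naturality -/
theorem phi_rel (I : Idem R m) (I' : Idem R' m) (F : R × R → R' × R')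
    (h1 : ∀ j x, F (phi I (FreeGroup.of (Fin.castAdd m j)) x) =
      phi I' (FreeGroup.of (Fin.castAdd m j)) (F x))
    (h2 : ∀ j x, F (phi I (FreeGroup.of (Fin.natAdd m j)) x) =
      phi I' (FreeGroup.of (Fin.natAdd m j)) (F x))
    (f : FreeGroup (Fin (m + m))) : ∀ x, F (phi I f x) = phi I' f (F x) := by
  induction f using FreeGroup.induction_on with
  | C1 => intro x; rw [phi_one, phi_one]
  | of i => exact phi_of I (fun f => ∀ x, F (phi I f x) = phi I' f (F x)) h1 h2 i
  | inv_of i ih =>
    intro x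
    have h := ih (phi I (FreeGroup.of i)⁻¹ x)
    rw [← phi_mul, mul_inv_cancel, phi_one] at h
    rw [h, ← phi_mul, inv_mul_cancel, phi_one]
  | mul a b ha hb =>
    intro x
    rw [phi_mul, phi_mul, ha, hb]

/-- invariants -/
theorem phi_inv (I : Idem R m) {Y : Type} (F : R × R → Y)
    (h1 : ∀ j x, F (phi I (FreeGroup.of (Fin.castAdd m j)) x) = F x)
    (h2 : ∀ j x, F (phi I (FreeGroup.of (Fin.natAdd m j)) x) = F x)
    (f : FreeGroup (Fin (m + m))) : ∀ x, F (phi I f x) = F x := by
  induction f using FreeGroup.induction_on with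
  | C1 => intro x; rw [phi_one]
  | of i => exact phi_of I (fun f => ∀ x, F (phi I f x) = F x) h1 h2 i
  | inv_of i ih =>
    intro x
    have h := ih (phi I (FreeGroup.of i)⁻¹ x)
    rw [← phi_mul, mul_inv_cancel, phi_one] at h
    exact h.symm
  | mul a b ha hb =>
    intro x
    rw [phi_mul, ha, hb]

/-- naturality for ring homomorphisms -/
theorem phi_map (I : Idem R m) (I' : Idem R' m) (F : R →+* R') (h1 : ∀ j, F (I.e j) = I'.e j)
    (h2 : F I.t = I'.t) (f : FreeGroup (Fin (m + m))) (x : R × R) :
    ((F (phi I f x).1, F (phi I f x).2) : R' × R') = phi I' f (F x.1, F x.2) := by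
  refine phi_rel I I' (fun x => (F x.1, F x.2)) ?_ ?_ f x
  · intro j x
    simp only [phi_a, map_sub, map_add, map_mul, map_one, h1]
  · intro j x
    simp only [phi_g, map_sub, map_add, map_mul, map_one, h1, h2]

/-- the action commutes with left multiplications -/
theorem phi_left (I : Idem R m) (g : R) (f : FreeGroup (Fin (m + m))) (x : R × R) :
    ((g * (phi I f x).1, g * (phi I f x).2) : R × R) = phi I f (g * x.1, g * x.2) := by
  refine phi_rel I I (fun x => (g * x.1, g * x.2)) ?_ ?_ f x
  · intro j x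
    simp only [phi_a, mul_sub, mul_add, mul_assoc]
  · intro j x
    simp only [phi_g, mul_assoc]

end

end Pool.Agent.N513.CE.Mod
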