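import Pool.Agent.N513.CE.Mod1

/-!
# Project CE, the module, part 2: the ring, the idempotents and the coset sums
-/

set_option autoImplicit false

namespace Pool.Agent.N513.CE.Mod

open Pool.Agent.N513.CE
open MonoidAlgebra (of single)

noncomputable section

/-! ### The ring -/

/-- the coefficient ring -/
abbrev CR (p : ℕ) := (n : ℕ) → ZMod (2 * p * n + 1)

theorem half_exists (p : ℕ) : ∃ t : CR p, t + t = 1 := by
  refine ⟨fun n => ((p * n + 1 : ℕ) : ZMod (2 * p * n + 1)), ?_⟩
  funext n
  show ((p * n + 1 : ℕ) : ZMod (2 * p * n + 1)) + ((p * n + 1 : ℕ) : ZMod (2 * p * n + 1)) = 1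
  have h : ((2 * p * n + 1 : ℕ) : ZMod (2 * p * n + 1)) = 0 := ZMod.natCast_self _
  have h2 : ((p * n + 1 : ℕ) : ZMod (2 * p * n + 1)) + ((p * n + 1 : ℕ) : ZMod (2 * p * n + 1)) =
      ((2 * p * n + 1 : ℕ) : ZMod (2 * p * n + 1)) + 1 := by
    push_cast
    ring
  rw [h2, h, zero_add]

theorem pinv_exists (p : ℕ) : ∃ r : CR p, r * (p : CR p) = 1 := by
  refine ⟨fun n => -((2 * n : ℕ) : ZMod (2 * p * n + 1)), ?_⟩
  funext n
  show -((2 * n : ℕ) : ZMod (2 * p * n + 1)) * ((p : ℕ) : ZMod (2 * p * n + 1)) = 1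
  have h : ((2 * p * n + 1 : ℕ) : ZMod (2 * p * n + 1)) = 0 := ZMod.natCast_self _
  have h2 : -((2 * n : ℕ) : ZMod (2 * p * n + 1)) * ((p : ℕ) : ZMod (2 * p * n + 1)) =
      1 - ((2 * p * n + 1 : ℕ) : ZMod (2 * p * n + 1)) := by
    push_cast
    ring
  rw [h2, h, sub_zero]

theorem int_inj (p : ℕ) (hp : 0 < p) : Function.Injective (Int.cast : ℤ → CR p) := by
  intro a b h
  by_contra hab
  have h1 : ∀ n : ℕ, ((2 * p * n + 1 : ℕ) : ℤ) ∣ a - b := by
    intro n
    have h2 : ((a : ℤ) : ZMod (2 * p * n + 1)) = ((b : ℤ) : ZMod (2 * p * n + 1)) := congrFun h n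
    rw [← ZMod.intCast_zmod_eq_zero_iff_dvd, Int.cast_sub, h2, sub_self]
  have h3 := h1 (a - b).natAbs
  have h4 := Int.natAbs_dvd_natAbs.2 h3
  rw [Int.natAbs_natCast] at h4
  have h5 : 0 < (a - b).natAbs := Int.natAbs_pos.2 (sub_ne_zero.2 hab)
  have h6 := Nat.le_of_dvd h5 h4
  nlinarith

/-! ### The idempotents -/

section idem

variable {C G : Type} [CommRing C] [Group G]

/-- the norm element -/
def nrm (C : Type) [CommRing C] (p : ℕ) (k : G) : MonoidAlgebra C G :=
  ∑ j ∈ Finset.range p, of C G k ^ j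

/-- the idempotent -/
def idm (p : ℕ) (r : C) (k : G) : MonoidAlgebra C G := 1 - r • nrm C p k

theorem mul_nrm {p : ℕ} {k : G} (hk : k ^ p = 1) : of C G k * nrm C p k = nrm C p k := by
  have h1 : (of C G k - 1) * nrm C p k = of C G k ^ p - 1 := mul_geom_sum _ _
  rw [← map_pow, hk, map_one, sub_self, sub_mul, one_mul, sub_eq_zero] at h1
  exact h1

theorem pow_nrm {p : ℕ} {k : G} (hk : k ^ p = 1) (j : ℕ) :
    of C G k ^ j * nrm C p k = nrm C p k := by
  induction j with
  | zero => rw [pow_zero, one_mul]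
  | succ j ih => rw [pow_succ, mul_assoc, mul_nrm hk, ih]

theorem nrm_nrm {p : ℕ} {k : G} (hk : k ^ p = 1) :
    nrm C p k * nrm C p k = (p : C) • nrm C p k := by
  have h : nrm C p k * nrm C p k = ∑ j ∈ Finset.range p, of C G k ^ j * nrm C p k := by
    rw [← Finset.sum_mul]
    rfl
  rw [h, Finset.sum_congr rfl fun j _ => pow_nrm hk j, Finset.sum_const, Finset.card_range]
  exact (Nat.cast_smul_eq_nsmul C p (nrm C p k)).symm

theorem idm_idem {p : ℕ} {r : C} (hr : r * (p : C) = 1) {k : G} (hk : k ^ p = 1) :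
    idm p r k * idm p r k = idm p r k := by
  unfold idm
  have h1 : (r • nrm C p k) * (r • nrm C p k) = r • nrm C p k := by
    rw [smul_mul_smul_comm, nrm_nrm hk, smul_smul, mul_assoc, hr, mul_one]
  rw [sub_mul, one_mul, mul_sub, mul_one, h1, sub_self, sub_zero]

theorem idm_left {p : ℕ} {r : C} {k : G} (hk : k ^ p = 1) :
    (of C G k - 1) * idm p r k = of C G k - 1 := by
  unfold idm
  have h1 : (of C G k - 1) * (r • nrm C p k) = 0 := by
    rw [mul_smul_comm, sub_mul, mul_nrm hk, one_mul, sub_self, smul_zero]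
  rw [mul_sub, mul_one, h1, sub_zero]

end idem

/-! ### The coset sums -/

section sums

variable {C G : Type} [CommRing C] [Group G] (K : Subgroup G)

/-- the coset sums -/
def sig : MonoidAlgebra C G →ₗ[C] ((G ⧸ K) →₀ C) :=
  (Finsupp.lmapDomain C C (QuotientGroup.mk : G → G ⧸ K)).comp
    (MonoidAlgebra.coeffLinearEquiv C).toLinearMap

theorem sig_single (g : G) (c : C) :
    sig K (single g c) = Finsupp.single (QuotientGroup.mk g : G ⧸ K) c := by
  show Finsupp.mapDomain (QuotientGroup.mk : G → G ⧸ K) (Finsupp.single g c) = _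
  exact Finsupp.mapDomain_single

theorem sig_left (g : G) (x : MonoidAlgebra C G) :
    sig K (of C G g * x) = Finsupp.mapDomain (fun v => g • v) (sig K x) := by
  induction x using MonoidAlgebra.induction_linear with
  | zero => rw [mul_zero, map_zero, Finsupp.mapDomain_zero]
  | add x y hx hy => rw [mul_add, map_add, map_add, hx, hy, Finsupp.mapDomain_add]
  | single h c =>
    rw [sig_single, Finsupp.mapDomain_single, MonoidAlgebra.of_apply,
      MonoidAlgebra.single_mul_single, one_mul, sig_single]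
    rfl

theorem sig_right {k : G} (hk : k ∈ K) (x : MonoidAlgebra C G) :
    sig K (x * of C G k) = sig K x := by
  induction x using MonoidAlgebra.induction_linear with
  | zero => rw [zero_mul]
  | add x y hx hy => rw [add_mul, map_add, map_add, hx, hy]
  | single h c =>
    rw [sig_single, MonoidAlgebra.of_apply, MonoidAlgebra.single_mul_single, mul_one, sig_single]
    congr 1
    exact QuotientGroup.eq.2 (by simpa using K.inv_mem hk)

theorem sig_pow {k : G} (hk : k ∈ K) (x : MonoidAlgebra C G) (j : ℕ) :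
    sig K (x * of C G k ^ j) = sig K x := by
  rw [← map_pow]
  exact sig_right K (K.pow_mem hk j) x

theorem sig_nrm {k : G} (hk : k ∈ K) (p : ℕ) (x : MonoidAlgebra C G) :
    sig K (x * nrm C p k) = (p : C) • sig K x := by
  unfold nrm
  rw [Finset.mul_sum, map_sum, Finset.sum_congr rfl fun j _ => sig_pow K hk x j, Finset.sum_const,
    Finset.card_range]
  exact (Nat.cast_smul_eq_nsmul C p (sig K x)).symm

theorem sig_idm {k : G} (hk : k ∈ K) {p : ℕ} {r : C} (hr : r * (p : C) = 1)
    (x : MonoidAlgebra C G) : sig K (x * idm p r k) = 0 := by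
  unfold idm
  rw [mul_sub, mul_one, mul_smul_comm, map_sub, map_smul, sig_nrm K hk, smul_smul, hr, one_smul,
    sub_self]

end sums

/-! ### Ring homomorphisms -/

section hom

variable {C C' G Q : Type} [CommRing C] [CommRing C'] [Group G] [Group Q]

/-- the ring homomorphism of group algebras -/
def rh (u : C →+* C') (π : G →* Q) : MonoidAlgebra C G →+* MonoidAlgebra C' Q :=
  (MonoidAlgebra.mapDomainRingHom C' π).comp (MonoidAlgebra.mapRingHom G u)

theorem rh_single (u : C →+* C') (π : G →* Q) (g : G) (c : C) :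
    rh u π (single g c) = single (π g) (u c) := by
  simp [rh]

theorem rh_of (u : C →+* C') (π : G →* Q) (g : G) : rh u π (of C G g) = of C' Q (π g) := by
  rw [MonoidAlgebra.of_apply, rh_single, map_one, MonoidAlgebra.of_apply]

theorem rh_smul (u : C →+* C') (π : G →* Q) (c : C) (x : MonoidAlgebra C G) :
    rh u π (c • x) = u c • rh u π x := by
  have h1 : ∀ (D H : Type) [CommRing D] [Group H] (c : D) (x : MonoidAlgebra D H),
      c • x = single 1 c * x := by
    intro D H _ _ c x
    induction x using MonoidAlgebra.induction_linear with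
    | zero => rw [mul_zero, smul_zero]
    | add x y hx hy => rw [mul_add, smul_add, hx, hy]
    | single h d =>
      rw [MonoidAlgebra.smul_single, MonoidAlgebra.single_mul_single, one_mul, smul_eq_mul]
  rw [h1, h1, map_mul, rh_single, map_one]

theorem rh_idm (u : C →+* C') (π : G →* Q) (p : ℕ) (r : C) (k : G) :
    rh u π (idm p r k) = idm p (u r) (π k) := by
  unfold idm nrm
  rw [map_sub, map_one, rh_smul, map_sum]
  simp only [map_pow, rh_of]

theorem rh_coeff (u : C →+* C') (π : G →* Q) (x : MonoidAlgebra C G)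
    (T : Set G) (hT : (x.coeff.support : Set G) ⊆ T) (hπ : Set.InjOn π T) {g : G} (hg : g ∈ T) :
    (rh u π x).coeff (π g) = u (x.coeff g) := by
  have h1 : (rh u π x).coeff = Finsupp.mapDomain π (MonoidAlgebra.mapRingHom G u x).coeff := rfl
  rw [h1, Finsupp.mapDomain_apply' T _ ?_ hπ hg]
  · exact MonoidAlgebra.coeff_mapRingHom u x g
  · intro a ha
    apply hT
    rw [Finset.mem_coe, Finsupp.mem_support_iff] at ha ⊢
    intro h0
    apply ha
    rw [MonoidAlgebra.coeff_mapRingHom, h0, map_zero]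

end hom

end

end Pool.Agent.N513.CE.Mod
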