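import Pool.Agent.N513.CE.Mod2
import Pool.Agent.N170.CE.LRF
import Pool.Agent.N264.CE.FINQ

/-!
# Project CE, the module, part 3: the module
-/

set_option autoImplicit false

namespace Pool.Agent.N513.CE.Mod

open Pool.Agent.N513.CE
open MonoidAlgebra (of single)

noncomputable section

section mod

variable {C G : Type} [CommRing C] [Group G] {m : ℕ}

/-- the data -/
def mkI (p : ℕ) (r t : C) (k : Fin m → G) (hr : r * (p : C) = 1) (ht : t + t = 1)
    (hk : ∀ j, k j ^ p = 1) : Idem (MonoidAlgebra C G) m where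
  e j := idm p r (k j)
  t := t • 1
  he j := idm_idem hr (hk j)
  ht x := by rw [smul_mul_assoc, one_mul, mul_smul_comm, mul_one]
  htt := by rw [← add_smul, ht, one_smul]

variable (K : Subgroup G)

/-- the pairing of lamps with coset functions -/
def pr (φ : G →₀ ZMod 2) (s : (G ⧸ K) →₀ ℤ) : ZMod 2 :=
  φ.sum fun u b => b * ((s (QuotientGroup.mk u) : ℤ) : ZMod 2)

theorem pr_zero (s : (G ⧸ K) →₀ ℤ) : pr K 0 s = 0 := Finsupp.sum_zero_index

theorem pr_add (φ ψ : G →₀ ZMod 2) (s : (G ⧸ K) →₀ ℤ) : pr K (φ + ψ) s = pr K φ s + pr K ψ s :=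
  Finsupp.sum_add_index' (fun _ => zero_mul _) fun _ _ _ => add_mul _ _ _

theorem pr_zero_right (φ : G →₀ ZMod 2) : pr K φ 0 = 0 := by
  unfold pr
  simp

theorem pr_add_right (φ : G →₀ ZMod 2) (s s' : (G ⧸ K) →₀ ℤ) :
    pr K φ (s + s') = pr K φ s + pr K φ s' := by
  unfold pr
  rw [← Finsupp.sum_add]
  refine Finset.sum_congr rfl fun u _ => ?_
  show φ u * (((s + s') (QuotientGroup.mk u) : ℤ) : ZMod 2) =
    φ u * ((s (QuotientGroup.mk u) : ℤ) : ZMod 2) + φ u * ((s' (QuotientGroup.mk u) : ℤ) : ZMod 2)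
  rw [Finsupp.add_apply, Int.cast_add, mul_add]

theorem pr_single (u : G) (b : ZMod 2) (s : (G ⧸ K) →₀ ℤ) :
    pr K (Finsupp.single u b) s = b * ((s (QuotientGroup.mk u) : ℤ) : ZMod 2) :=
  Finsupp.sum_single_index (zero_mul _)

theorem smul_inj (g : G) : Function.Injective fun v : G ⧸ K => g • v := MulAction.injective g

theorem pr_shift (g : G) (φ : G →₀ ZMod 2) (s : (G ⧸ K) →₀ ℤ) :
    pr K (Finsupp.mapDomain (fun x => g * x) φ) (Finsupp.mapDomain (fun v => g • v) s) =
      pr K φ s := by
  induction φ using Finsupp.induction_linear with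
  | zero => rw [Finsupp.mapDomain_zero, pr_zero, pr_zero]
  | add x y hx hy => rw [Finsupp.mapDomain_add, pr_add, pr_add, hx, hy]
  | single u b =>
    rw [Finsupp.mapDomain_single, pr_single, pr_single]
    have h : (QuotientGroup.mk (g * u) : G ⧸ K) = g • (QuotientGroup.mk u : G ⧸ K) := rfl
    rw [h]
    have h2 := Finsupp.mapDomain_apply (smul_inj K g) s (QuotientGroup.mk u : G ⧸ K)
    rw [h2]

variable (C) in
/-- the ambient group -/
abbrev Amb := (MonoidAlgebra C G × MonoidAlgebra C G) × (((G ⧸ K) →₀ ℤ) × ZMod 2)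

/-- the action -/
def act (I : Idem (MonoidAlgebra C G) m) (d : LL G × FreeGroup (Fin (m + m))) (x : Amb C K) :
    Amb C K :=
  (phi I d.2 (of C G d.1.right * x.1.1, of C G d.1.right * x.1.2),
    (Finsupp.mapDomain (fun v => d.1.right • v) x.2.1,
      x.2.2 + pr K d.1.left.toAdd (Finsupp.mapDomain (fun v => d.1.right • v) x.2.1)))

theorem act_add (I : Idem (MonoidAlgebra C G) m) (d : LL G × FreeGroup (Fin (m + m)))
    (x y : Amb C K) : act K I d (x + y) = act K I d x + act K I d y := by
  refine Prod.ext ?_ (Prod.ext ?_ ?_)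
  · show phi I d.2 (of C G d.1.right * (x.1.1 + y.1.1), of C G d.1.right * (x.1.2 + y.1.2)) =
      phi I d.2 (of C G d.1.right * x.1.1, of C G d.1.right * x.1.2) +
        phi I d.2 (of C G d.1.right * y.1.1, of C G d.1.right * y.1.2)
    rw [← phi_add, mul_add, mul_add]
    rfl
  · exact Finsupp.mapDomain_add
  · show x.2.2 + y.2.2 + pr K d.1.left.toAdd
        (Finsupp.mapDomain (fun v => d.1.right • v) (x.2.1 + y.2.1)) =
      (x.2.2 + pr K d.1.left.toAdd (Finsupp.mapDomain (fun v => d.1.right • v) x.2.1)) +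
      (y.2.2 + pr K d.1.left.toAdd (Finsupp.mapDomain (fun v => d.1.right • v) y.2.1))
    rw [Finsupp.mapDomain_add, pr_add_right]
    abel

theorem act_one (I : Idem (MonoidAlgebra C G) m) (x : Amb C K) : act K I 1 x = x := by
  have h1 : Finsupp.mapDomain (fun v => (1 : G) • v) x.2.1 = x.2.1 := by
    have : (fun v : G ⧸ K => (1 : G) • v) = id := by
      funext v
      exact one_smul _ _
    rw [this, Finsupp.mapDomain_id]
  refine Prod.ext ?_ (Prod.ext ?_ ?_)
  · show phi I 1 (of C G 1 * x.1.1, of C G 1 * x.1.2) = x.1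
    rw [phi_one, map_one, one_mul, one_mul]
  · exact h1
  · show x.2.2 + pr K 0 (Finsupp.mapDomain (fun v => (1 : G) • v) x.2.1) = x.2.2
    rw [pr_zero, add_zero]

theorem act_mul (I : Idem (MonoidAlgebra C G) m) (d e : LL G × FreeGroup (Fin (m + m)))
    (x : Amb C K) : act K I (d * e) x = act K I d (act K I e x) := by
  have h1 : Finsupp.mapDomain (fun v => (d.1.right * e.1.right) • v) x.2.1 =
      Finsupp.mapDomain (fun v => d.1.right • v)
        (Finsupp.mapDomain (fun v => e.1.right • v) x.2.1) := by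
    rw [← Finsupp.mapDomain_comp]
    congr 1
    funext v
    exact mul_smul _ _ _
  refine Prod.ext ?_ (Prod.ext ?_ ?_)
  · show phi I (d.2 * e.2) (of C G (d.1.right * e.1.right) * x.1.1,
        of C G (d.1.right * e.1.right) * x.1.2) =
      phi I d.2 (of C G d.1.right * (phi I e.2 (of C G e.1.right * x.1.1,
          of C G e.1.right * x.1.2)).1,
        of C G d.1.right * (phi I e.2 (of C G e.1.right * x.1.1,
          of C G e.1.right * x.1.2)).2)
    rw [phi_left, ← phi_mul, map_mul, mul_assoc, mul_assoc]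
  · exact h1
  · show x.2.2 + pr K (d.1.left * (shf G d.1.right) e.1.left).toAdd
        (Finsupp.mapDomain (fun v => (d.1.right * e.1.right) • v) x.2.1) =
      (x.2.2 + pr K e.1.left.toAdd (Finsupp.mapDomain (fun v => e.1.right • v) x.2.1)) +
        pr K d.1.left.toAdd (Finsupp.mapDomain (fun v => d.1.right • v)
          (Finsupp.mapDomain (fun v => e.1.right • v) x.2.1))
    rw [h1, toAdd_mul, pr_add]
    have h2 : ((shf G d.1.right) e.1.left).toAdd =
        Finsupp.mapDomain (fun x => d.1.right * x) e.1.left.toAdd := by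
      have := Pool.Agent.N170.CE.shf_apply d.1.right e.1.left.toAdd
      rw [ofAdd_toAdd] at this
      rw [this, toAdd_ofAdd]
    rw [h2, pr_shift]
    abel

/-- the module -/
def LM : AddSubgroup (Amb C K) where
  carrier := {x | sig K x.1.1 = Finsupp.mapRange (Int.cast : ℤ → C) Int.cast_zero x.2.1}
  zero_mem' := by
    show sig K 0 = Finsupp.mapRange (Int.cast : ℤ → C) Int.cast_zero 0
    rw [map_zero, Finsupp.mapRange_zero]
  add_mem' := by
    intro x y hx hy
    show sig K (x.1.1 + y.1.1) = Finsupp.mapRange (Int.cast : ℤ → C) Int.cast_zero (x.2.1 + y.2.1)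
    rw [map_add, Finsupp.mapRange_add Int.cast_add, ← hx, ← hy]
  neg_mem' := by
    intro x hx
    show sig K (-x.1.1) = Finsupp.mapRange (Int.cast : ℤ → C) Int.cast_zero (-x.2.1)
    rw [map_neg, Finsupp.mapRange_neg Int.cast_neg, ← hx]

theorem mem_LM (x : Amb C K) : x ∈ LM (C := C) K ↔
    sig K x.1.1 = Finsupp.mapRange (Int.cast : ℤ → C) Int.cast_zero x.2.1 := Iff.rfl

/-- the idempotents do not change the coset sums -/
def Good (I : Idem (MonoidAlgebra C G) m) : Prop := ∀ j x, sig K (x * I.e j) = 0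

theorem sig_phi {I : Idem (MonoidAlgebra C G) m} (hI : Good K I) (f : FreeGroup (Fin (m + m)))
    (x : MonoidAlgebra C G × MonoidAlgebra C G) : sig K (phi I f x).1 = sig K x.1 := by
  refine phi_inv I (fun x => sig K x.1) ?_ ?_ f x
  · intro j x
    simp only [phi_a]
    rw [mul_sub, mul_one, map_sub, map_sub, hI, hI, sub_zero, sub_zero]
  · intro j x
    simp only [phi_g]
    rw [mul_add, mul_one, map_add, hI, add_zero]

theorem act_mem {I : Idem (MonoidAlgebra C G) m} (hI : Good K I)
    (d : LL G × FreeGroup (Fin (m + m))) {x : Amb C K} (hx : x ∈ LM (C := C) K) :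
    act K I d x ∈ LM (C := C) K := by
  rw [mem_LM] at hx ⊢
  show sig K (phi I d.2 (of C G d.1.right * x.1.1, of C G d.1.right * x.1.2)).1 =
    Finsupp.mapRange (Int.cast : ℤ → C) Int.cast_zero
      (Finsupp.mapDomain (fun v => d.1.right • v) x.2.1)
  rw [sig_phi K hI, sig_left, hx]
  exact Finsupp.mapDomain_mapRange _ _ _ _ Int.cast_add

/-- the representation -/
def rho {I : Idem (MonoidAlgebra C G) m} (hI : Good K I) :
    LL G × FreeGroup (Fin (m + m)) →* AddMonoid.End (LM (C := C) K) where
  toFun d :=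
    { toFun := fun x => ⟨act K I d x.1, act_mem K hI d x.2⟩
      map_zero' := by
        apply Subtype.ext
        have h := act_add K I d 0 0
        rw [add_zero] at h
        exact left_eq_add.1 h
      map_add' := fun x y => Subtype.ext (act_add K I d x.1 y.1) }
  map_one' := by
    ext x : 1
    exact Subtype.ext (act_one K I x.1)
  map_mul' d e := by
    ext x : 1
    exact Subtype.ext (act_mul K I d e x.1)

theorem rho_val {I : Idem (MonoidAlgebra C G) m} (hI : Good K I)
    (d : LL G × FreeGroup (Fin (m + m))) (x : LM (C := C) K) :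
    (rho K hI d x : Amb C K) = act K I d x.1 := rfl

/-- the finite quotients -/
def tau {C' Q : Type} [CommRing C'] [Group Q] (I : Idem (MonoidAlgebra C' Q) m) (π : G →* Q) :
    LL G × FreeGroup (Fin (m + m)) →* AddMonoid.End (MonoidAlgebra C' Q × MonoidAlgebra C' Q) where
  toFun d :=
    { toFun := fun x => phi I d.2 (of C' Q (π d.1.right) * x.1, of C' Q (π d.1.right) * x.2)
      map_zero' := by
        show phi I d.2 (of C' Q (π d.1.right) * 0, of C' Q (π d.1.right) * 0) = 0
        rw [mul_zero]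
        exact map_zero _
      map_add' := by
        intro x y
        show phi I d.2 (of C' Q (π d.1.right) * (x.1 + y.1), of C' Q (π d.1.right) * (x.2 + y.2)) =
          _
        rw [mul_add, mul_add]
        exact phi_add I d.2 (_, _) (_, _) }
  map_one' := by
    ext1 x
    show phi I 1 (of C' Q (π 1) * x.1, of C' Q (π 1) * x.2) = x
    rw [phi_one, map_one, map_one, one_mul, one_mul]
  map_mul' d e := by
    ext1 x
    show phi I (d.2 * e.2) (of C' Q (π (d.1.right * e.1.right)) * x.1,
        of C' Q (π (d.1.right * e.1.right)) * x.2) =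
      phi I d.2 (of C' Q (π d.1.right) * (phi I e.2 (of C' Q (π e.1.right) * x.1,
          of C' Q (π e.1.right) * x.2)).1,
        of C' Q (π d.1.right) * (phi I e.2 (of C' Q (π e.1.right) * x.1,
          of C' Q (π e.1.right) * x.2)).2)
    rw [phi_left, ← phi_mul, map_mul, map_mul, mul_assoc, mul_assoc]

theorem tau_apply {C' Q : Type} [CommRing C'] [Group Q] (I : Idem (MonoidAlgebra C' Q) m)
    (π : G →* Q) (d : LL G × FreeGroup (Fin (m + m)))
    (x : MonoidAlgebra C' Q × MonoidAlgebra C' Q) :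
    tau I π d x = phi I d.2 (of C' Q (π d.1.right) * x.1, of C' Q (π d.1.right) * x.2) := rfl

end mod

end

end Pool.Agent.N513.CE.Mod
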