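import Pool.Agent.N513.CE.Stm

/-!
# Project CE: statements, second part
-/

set_option autoImplicit false

namespace Pool.Agent.N513.CE

open Pool.Agent.N44.NS (E3 el)
open Pool.Agent.H21R2 (IsSofic)
open Pool.Agent.W661.RC (HasT)
open Pool.Agent.N303.KS (ct)

/-- Approximations of the action of `G` on `G ⧸ K` in which different points have different labels
with probability at least `1 / 4`. -/
def Semi (G : Type) [Group G] (K : Subgroup G) : Prop :=
  ∀ (F : Finset G) (E : Finset (G ⧸ K)) (ε : ℝ), 0 < ε →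
    ∃ (V O : Type) (_ : Fintype V) (_ : Nonempty V) (_ : Finite O) (σ : G → Equiv.Perm V)
      (lam : V → G ⧸ K → O), σ 1 = 1 ∧
      (∀ g ∈ F, ∀ h ∈ F, ct (fun x => σ (g * h) x ≠ σ g (σ h x)) ≤ ε * Fintype.card V) ∧
      (∀ g ∈ F, ∀ u ∈ E, g⁻¹ • u ∈ E →
        ct (fun x => lam (σ g x) u ≠ lam x (g⁻¹ • u)) ≤ ε * Fintype.card V) ∧
      ∀ u ∈ E, ∀ u' ∈ E, u ≠ u' → ct (fun x => lam x u = lam x u') ≤ 3 / 4 * Fintype.card V

/-- LB2: the product trick. -/
def S_LB2 : Prop :=
  ∀ (G : Type) [Group G] (K : Subgroup G), Semi G K →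
    Pool.Agent.N540.SA.IsSofic (MulAction.toPermHom G (G ⧸ K))

/-- LB1: the labels. -/
def S_LB1 : Prop :=
  ThmAA → S_ODD →
  ∀ (P D L G : Type) [Group P] [Group D] [AddCommGroup L] [Group G]
    (N : Subgroup P) (j : D →* P) (s : L → P) (ρ : D →* AddMonoid.End L) (i : G →* D)
    (K : Subgroup G) (S : Finset G) (w c : L),
    N.Normal → HasT N → IsSofic P → Function.Injective s → (∀ a b, s (a + b) = s a * s b) →
    (∀ l, s l ∈ N ∧ ∀ n ∈ N, n * s l = s l * n) →
    (∀ d l, j d * s l * (j d)⁻¹ = s (ρ d l)) →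
    Subgroup.closure (S : Set G) = K → (∀ d, ρ d c = c) → c + c = 0 → c ≠ 0 →
    (∀ k ∈ S, ∃ (a g : D) (m' : L), ρ a (ρ (i k) w - w) = m' ∧
      ρ a m' = -((ρ (i k) w - w) + m') ∧ ρ g (ρ (i k) w - w) = (2 : ℤ) • (ρ (i k) w - w) ∧
      ρ g ((2 : ℤ) • m') = m') →
    (∀ g, g ∉ K → ∃ y : D, ρ y (ρ (i g) w - w) = ρ (i g) w - w + c) →
    Semi G K

/-- OK: the elements which have odd order for most points. -/
def OddE {P : Type} [Group P] (l : P) (C : Set P) : Prop :=
  ∀ ε : ℝ, 0 < ε → ∃ (A B : Finset P) (δ : ℝ), 0 < δ ∧ (∀ x ∈ A, x ∈ C) ∧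
    ∀ (A' B' : Finset P), A ⊆ A' → B ⊆ B' →
      ∀ (V Q : Type) [Fintype V] [Group Q] [Finite Q] (σ : P → Equiv.Perm V) (f : V → P → Q)
        (Bad : V → Prop), Apx A' B' δ σ f Bad →
        ct (fun x => Even (orderOf (f x l))) ≤ ε * Fintype.card V

/-- OCL: closure properties. -/
def S_OCL : Prop :=
  ∀ (P : Type) [Group P] (C : Subgroup P), (∀ a ∈ C, ∀ b ∈ C, a * b = b * a) →
    OddE (1 : P) C ∧
    (∀ l ∈ C, ∀ l' ∈ C, OddE l C → OddE l' C → OddE (l * l') C) ∧
    (∀ l ∈ C, OddE l C → OddE l⁻¹ C) ∧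
    (∀ l ∈ C, ∀ g : P, g * l * g⁻¹ ∈ C → OddE l C → OddE (g * l * g⁻¹) C)

/-- the ring homomorphism of group algebras induced by a homomorphism of the coefficient rings and a
homomorphism of the groups -/
noncomputable def rmap {C C' D D' : Type} [CommRing C] [CommRing C'] [Group D] [Group D']
    (γ : C →+* C') (π : D →* D') : MonoidAlgebra C D →+* MonoidAlgebra C' D' :=
  (MonoidAlgebra.mapDomainRingHom C' π).comp (MonoidAlgebra.mapRingHom D γ)

theorem rmap_of {C C' D D' : Type} [CommRing C] [CommRing C'] [Group D] [Group D']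
    (γ : C →+* C') (π : D →* D') (d : D) :
    rmap γ π (MonoidAlgebra.of C D d) = MonoidAlgebra.of C' D' (π d) := by
  show MonoidAlgebra.mapDomainRingHom C' π (MonoidAlgebra.mapRingHom D γ
    (MonoidAlgebra.single d 1)) = MonoidAlgebra.single (π d) 1
  rw [MonoidAlgebra.mapRingHom_single, map_one]
  simp

/-- functoriality of the Hall group -/
noncomputable def Hall.map {C C' D D' : Type} [CommRing C] [CommRing C'] [Group D] [Group D']
    (γ : C →+* C') (π : D →* D') : Hall C D →* Hall C' D' where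
  toFun x := ⟨rmap γ π x.U, rmap γ π x.V, rmap γ π x.W, π x.h⟩
  map_one' := by
    ext1
    · exact map_zero (rmap γ π)
    · exact map_zero (rmap γ π)
    · exact map_zero (rmap γ π)
    · exact map_one π
  map_mul' x y := by
    ext1
    · simp only [Hall.mul_U, map_add, map_mul, rmap_of]
    · simp only [Hall.mul_V, map_add, map_mul, rmap_of]
    · simp only [Hall.mul_W, map_add, map_mul]
    · simp only [Hall.mul_h, map_mul]

theorem Hall.map_act {C C' D D' : Type} [CommRing C] [CommRing C'] [Group D] [Group D']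
    (γ : C →+* C') (π : D →* D') (d : D) (x : Hall C D) :
    Hall.map γ π (Hall.act d x) = Hall.act (π d) (Hall.map γ π x) := by
  ext1
  · show rmap γ π (MonoidAlgebra.of C D d * x.U) = MonoidAlgebra.of C' D' (π d) * rmap γ π x.U
    rw [map_mul, rmap_of]
  · rfl
  · show rmap γ π (MonoidAlgebra.of C D d * x.W) = MonoidAlgebra.of C' D' (π d) * rmap γ π x.W
    rw [map_mul, rmap_of]
  · rfl

theorem Hall.map_z {C C' D D' : Type} [CommRing C] [CommRing C'] [Group D] [Group D']
    (γ : C →+* C') (π : D →* D') (W : MonoidAlgebra C D) :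
    Hall.map γ π (Hall.z W) = Hall.z (rmap γ π W) := by
  ext1
  · exact map_zero (rmap γ π)
  · exact map_zero (rmap γ π)
  · rfl
  · exact map_one π

/-- functoriality of the big group -/
noncomputable def PH.map (q : ℕ) {C C' D D' : Type} [CommRing C] [CommRing C'] [Group D] [Group D']
    (γ : C →+* C') (π : D →* D') : PH q C D →* PH q C' D' :=
  SemidirectProduct.map (emap (amap (ZMod q) (Hall.map γ π))) π (by
    intro d
    ext x : 1
    apply Subtype.ext
    apply Units.ext
    ext a b : 1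
    show amap (ZMod q) (Hall.map γ π) (amap (ZMod q) (Hall.act d).toMonoidHom _) =
      amap (ZMod q) (Hall.act (π d)).toMonoidHom (amap (ZMod q) (Hall.map γ π) _)
    rw [amap_comp, amap_comp]
    congr 2
    ext1 y
    exact Hall.map_act γ π d y)

/-- HRJ: the Hall group is residually finite, through the maps `Hall.map`. -/
def S_HRJ : Prop :=
  ∀ (D : Type) [Group D], RF D → ∀ T : Finset (Hall ℤ D),
    ∃ (n : ℕ) (D' : Type) (_ : Group D') (_ : Finite D') (π : D →* D'), n ≠ 0 ∧
      Set.InjOn (Hall.map (Int.castRingHom (ZMod n)) π) (T : Set (Hall ℤ D))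

/-- FINQ: finiteness of the big group over finite data. -/
def S_FINQ : Prop :=
  ∀ (q : ℕ) (C D : Type) [CommRing C] [Group D] [Finite C] [Finite D], q ≠ 0 → Finite (PH q C D)

end Pool.Agent.N513.CE
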